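import Pool.Agent.H73FC.Defs
import Pool.Agent.N102.CF.Basic

/-!
# Closed orbits of flows as circle factors: elementary facts
-/

set_option autoImplicit false
set_option linter.unusedSectionVars false

open scoped Manifold ContDiff Topology
open Filter Set Metric

universe u

namespace Pool.Agent.H73FC

open Pool.Agent.H718R2.G Pool.Agent.W564.SC Pool.Agent.TH290.CL Pool.Agent.TH80.CLX
open Pool.Agent.N102.CF

variable {n : ℕ} {N : Type u} [TopologicalSpace N] [ChartedSpace (V n) N]
  {F : N → N} {O K : Set N} {A : ℝ → N → N} {a : N → ℂ} {G : ℝ → ℝ} {e : ℕ}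

theorem FClock.int_apply (h : FClock n N F O K A a G e) (k : ℤ) : ∀ y ∈ K, A k y = y := by
  have hn : ∀ m : ℕ, ∀ y ∈ K, A m y = y := by
    intro m
    induction m with
    | zero =>
      intro y hy
      rw [Nat.cast_zero]
      exact h.flow.zero y (h.sub hy)
    | succ m ih =>
      intro y hy
      rw [Nat.cast_succ, h.flow.add _ _ y (h.sub hy), h.per y hy, ih y hy]
  intro y hy
  obtain ⟨m, rfl | rfl⟩ := Int.eq_nat_or_neg k
  · exact_mod_cast hn m y hy
  · have h1 := h.flow.add (((-(m : ℤ) : ℤ)) : ℝ) (m : ℝ) y (h.sub hy)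
    rw [hn m y hy] at h1
    rw [← h1]
    push_cast
    rw [neg_add_cancel, h.flow.zero y (h.sub hy)]

theorem FClock.ne_zero (h : FClock n N F O K A a G e) {y : N} (hy : y ∈ K) : a y ≠ 0 := by
  intro h0
  have := h.norm y hy
  rw [h0, norm_zero] at this
  exact zero_ne_one this

/-- Points of the same closed orbit with the same clock reading coincide. -/
theorem FClock.eq_of_ex (h : FClock n N F O K A a G e) {y : N} (hy : y ∈ K) {s t : ℝ}
    (hst : a (A s y) = a (A t y)) : A s y = A t y := by
  rw [h.equi s y hy, h.equi t y hy] at hst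
  obtain ⟨k, hk⟩ := ex_eq_ex (mul_right_cancel₀ (h.ne_zero hy) hst)
  have h1 : s = t + (k : ℝ) := by linarith
  rw [h1, h.flow.add _ _ y (h.sub hy), h.int_apply k y hy]

theorem FClock.iter_mem (h : FClock n N F O K A a G e) (m : ℕ) : ∀ y ∈ K, (F^[e])^[m] y ∈ K := by
  induction m with
  | zero => exact fun y hy => hy
  | succ m ih =>
    intro y hy
    rw [Function.iterate_succ_apply']
    exact h.inv _ (ih y hy)

theorem FClock.iter_circ (h : FClock n N F O K A a G e) (m : ℕ) :
    ∀ y ∈ K, ∀ t, ∃ s, (F^[e])^[m] (A t y) = A s ((F^[e])^[m] y) := by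
  induction m with
  | zero => exact fun y hy t => ⟨t, rfl⟩
  | succ m ih =>
    intro y hy t
    obtain ⟨s, hs⟩ := ih y hy t
    obtain ⟨s', hs'⟩ := h.circ _ (h.iter_mem m y hy) s
    refine ⟨s', ?_⟩
    rw [Function.iterate_succ_apply', Function.iterate_succ_apply', hs, hs']

theorem FClock.iter_fac (h : FClock n N F O K A a G e) (m : ℕ) :
    ∀ y ∈ K, ∀ x : ℝ, a y = ex x → a ((F^[e])^[m] y) = ex (G^[m] x) := by
  induction m with
  | zero => exact fun y hy x hx => hx
  | succ m ih =>
    intro y hy x hx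
    rw [Function.iterate_succ_apply', Function.iterate_succ_apply']
    exact h.fac _ (h.iter_mem m y hy) _ (ih y hy x hx)

end Pool.Agent.H73FC
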