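import Pool.Agent.N102.CF.Defs
import Pool.Agent.Y368.SLD.Defs
import Pool.Agent.Y271.CP.Defs
import Pool.Agent.TH80.CLX.LFam

/-!
# Products of arbitrary maps with maps which have periodic circles, tori, homogeneous submanifolds

`V n = ℝⁿ`, `DiffM n N r = Diff^r(N)`, `LFlow k Y O ψ`: `ψ` is a smooth action of `ℝ` on the open set
`O ⊆ Y`; `IsLift G`, `NotLocked G`: `Pool/Agent/N102/CF/Defs.lean`; `IsSLdPer`:
`Pool/Agent/Y368/SLD/Defs.lean`; `ProdDiffeo`, `atP`, `IsProd`: `Pool/Agent/Y271/CP/Defs.lean`.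
-/

set_option autoImplicit false

open scoped Manifold ContDiff Topology
open Filter Set Metric

universe u v

namespace Pool.Agent.H73FC

open Pool.Agent.H718R2.G Pool.Agent.W564.SC Pool.Agent.TH80.CLX Pool.Agent.N102.CF
open Pool.Agent.Y271.CP

/-- `y` lies on a periodic circle `C` of `h` on which the rotation number is not locked: `C` is a
closed orbit of period `1` of a smooth flow `ψ` defined on an open set `O` which contains `y`
(`C = {ψ_t y}`), `h^q(C) = C` for some `q ≥ 1`, the sets `h^i(C)`, `0 < i < q`, do not meet `C`, and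
`h^q` is on `C` the circle diffeomorphism with the lift `G`, `h^q(ψ_t y) = ψ_(G t) y`. Nothing is
required of `h` outside of `C, h(C), ..., h^(q-1)(C)`; in particular `h` and `ψ` need not commute. -/
def CircPt (k : ℕ) (Y : Type u) [TopologicalSpace Y] [ChartedSpace (V k) Y] (h : Y → Y) (y : Y) :
    Prop :=
  ∃ (O : Set Y) (ψ : ℝ → Y → Y) (q : ℕ) (G : ℝ → ℝ), LFlow k Y O ψ ∧ y ∈ O ∧ ψ 1 y = y ∧
    (∀ t, 0 < t → t < 1 → ψ t y ≠ y) ∧ 1 ≤ q ∧ IsLift G ∧ NotLocked G ∧
    (∀ t, h^[q] (ψ t y) = ψ (G t) y) ∧ ∀ i, 0 < i → i < q → ∀ s t, h^[i] (ψ s y) ≠ ψ t y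

/-- `y` lies on a periodic torus of positive dimension on which `h` is quasi-periodic: `R` is a smooth
action of `ℝᵉ` on an open set `O` containing `y`, the vectors of `ℤᵉ` fix `y`, but not all vectors fix
`y`; the torus `C = {R_a y}` is periodic under `h` with some period `m ≥ 1` (`h^i(C)` does not meet `C`
for `0 < i < m`) and `h^m` is on `C` the translation by some `α ∈ ℝᵉ`. Nothing is required of `h`
elsewhere. -/
def TorPer (k : ℕ) (Y : Type u) [TopologicalSpace Y] [ChartedSpace (V k) Y] (h : Y → Y) (y : Y) :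
    Prop :=
  ∃ (e : ℕ) (O : Set Y) (R : V e → Y → Y) (m : ℕ) (α : V e), LAct e k Y O R ∧ y ∈ O ∧
    (∀ v : V e, (∀ i, ∃ l : ℤ, v i = l) → R v y = y) ∧ (∃ a, R a y ≠ y) ∧ 1 ≤ m ∧
    (∀ a, h^[m] (R a y) = R (a + α) y) ∧ ∀ i, 0 < i → i < m → ∀ a b, h^[i] (R a y) ≠ R b y

/-- `x` is nonwandering for all powers of `f`; for example `x` is recurrent. -/
def NonWandAll {X : Type*} [TopologicalSpace X] (f : X → X) (x : X) : Prop :=
  ∀ d : ℕ, 1 ≤ d → NonWand (f^[d]) x

/-- For some compact set `L ⊆ M` which contains `x` (for example `L = M`), the map `F` is the product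
`f × h` on `L × Y` (in the coordinates given by `Θ : M × Y → N`), where `f : L → L` is an ARBITRARY
homeomorphism for which `x` is recurrent, or nonwandering for all powers of `f`, `h` is a `C^r`
diffeomorphism of `Y`, and `y` is a limit of points which lie on periodic circles of `h` with a not
locked rotation number, or on quasi-periodic periodic tori of `h`, or on periodic homogeneous
submanifolds `SL(d, ℝ) / Γ` of `h`, `d ≥ 2`, on which the return map is a translation. -/
def ProdHom {m k n : ℕ} {M : Type*} [TopologicalSpace M] [ChartedSpace (V m) M]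
    {Y : Type u} [TopologicalSpace Y] [ChartedSpace (V k) Y]
    {N : Type*} [TopologicalSpace N] [ChartedSpace (V n) N] (r : ℕ∞)
    (Θ : ProdDiffeo m k n M Y N) (F : N → N) (x : M) (y : Y) : Prop :=
  ∃ (L : Set M) (f : L ≃ₜ L) (h : DiffM k Y r) (hx : x ∈ L), IsCompact L ∧
    (IsRec f ⟨x, hx⟩ ∨ NonWandAll f ⟨x, hx⟩) ∧ IsProd Θ F L f h ∧
    y ∈ closure {y' | CircPt k Y h y' ∨ TorPer k Y h y' ∨
      ∃ d, 2 ≤ d ∧ Pool.Agent.Y368.SLD.IsSLdPer d k Y h y'}

end Pool.Agent.H73FC
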