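import Pool.Agent.H73FC.CDefs
import Pool.Agent.N102.CF.Basic

/-!
# Periodic circles
-/

set_option autoImplicit false
set_option linter.unusedSectionVars false

open scoped Manifold ContDiff Topology
open Filter Set Metric

universe u v

namespace Pool.Agent.H73FC

open Pool.Agent.H718R2.G Pool.Agent.W564.SC Pool.Agent.TH80.CLX Pool.Agent.N102.CF
open Pool.Agent.Y271.CP

/-! ### rotations -/

theorem rho_rot (c : ℝ) : rho (fun x => x + c) = c := by
  have h1 : ∀ (n : ℕ) (x : ℝ), (fun x : ℝ => x + c)^[n] x = x + n * c := by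
    intro n
    induction n with
    | zero => intro x; simp
    | succ n ih =>
      intro x
      rw [Function.iterate_succ_apply, ih]
      push_cast
      ring
  have h2 : Tendsto (fun n : ℕ => (fun x : ℝ => x + c)^[n] 0 / n) atTop (𝓝 c) := by
    refine tendsto_const_nhds.congr' ?_
    filter_upwards [eventually_ge_atTop 1] with n hn
    have hn' : (n : ℝ) ≠ 0 := by
      have : (1 : ℝ) ≤ n := by exact_mod_cast hn
      linarith
    rw [h1, zero_add]
    field_simp
  exact h2.limUnder_eq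

theorem isLift_rot (c : ℝ) : IsLift (fun x => x + c) where
  smooth := contDiff_id.add contDiff_const
  pos x := by
    have : deriv (fun x : ℝ => x + c) x = 1 := by
      rw [deriv_add_const, deriv_id'']
    rw [this]
    exact one_pos
  add_one x := by ring

theorem notLocked_rot (c : ℝ) : NotLocked (fun x => x + c) := by
  intro ε hε
  refine ⟨0, ε / 2, by simpa using hε, by rw [abs_of_pos (by linarith)]; linarith, ?_⟩
  have e : ∀ s : ℝ, (fun x => (fun x : ℝ => x + c) (x + s)) = fun x => x + (s + c) := by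
    intro s
    funext x
    ring
  rw [e, e, rho_rot, rho_rot]
  intro h
  linarith

section

variable {k : ℕ} {Y : Type u} [TopologicalSpace Y] [T2Space Y] [ChartedSpace (V k) Y]
  {O : Set Y} {ψ : ℝ → Y → Y}

theorem orb_smooth (hψ : LFlow k Y O ψ) {y : Y} (hy : y ∈ O) :
    ContMDiff 𝓘(ℝ, ℝ) (𝓡 k) ∞ (fun t : ℝ => ψ t y) := by
  have h2 : ContMDiff 𝓘(ℝ, ℝ) (𝓘(ℝ, ℝ).prod (𝓡 k)) ∞ (fun t : ℝ => ((t, y) : ℝ × Y)) :=
    contMDiff_id.prodMk contMDiff_const
  exact contMDiffOn_univ.1 (hψ.smooth.comp (f := fun t : ℝ => ((t, y) : ℝ × Y))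
    h2.contMDiffOn (fun t _ => ⟨mem_univ _, hy⟩))

/-- a change of the time scale -/
theorem fl_scale (hψ : LFlow k Y O ψ) (T : ℝ) : LFlow k Y O (fun t y => ψ (T * t) y) where
  isOpen := hψ.isOpen
  maps t y hy := hψ.maps _ y hy
  smooth := by
    have h1 : ContMDiff (𝓘(ℝ, ℝ).prod (𝓡 k)) (𝓘(ℝ, ℝ).prod (𝓡 k)) ∞
        (fun p : ℝ × Y => ((T * p.1, p.2) : ℝ × Y)) := by
      refine ContMDiff.prodMk ?_ contMDiff_snd
      have h2 : ContDiff ℝ ∞ (fun t : ℝ => T * t) := contDiff_const.mul contDiff_id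
      exact h2.contMDiff.comp contMDiff_fst
    exact hψ.smooth.comp (f := fun p : ℝ × Y => ((T * p.1, p.2) : ℝ × Y)) h1.contMDiffOn
      (fun p hp => ⟨mem_univ _, hp.2⟩)
  zero y hy := by
    show ψ (T * 0) y = y
    rw [mul_zero, hψ.zero y hy]
  add s t y hy := by
    show ψ (T * (s + t)) y = ψ (T * s) (ψ (T * t) y)
    rw [mul_add, hψ.add _ _ y hy]

theorem fl_neg (hψ : LFlow k Y O ψ) {y : Y} (hy : y ∈ O) (t : ℝ) : ψ (-t) (ψ t y) = y := by
  rw [← hψ.add _ _ y hy, neg_add_cancel, hψ.zero y hy]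

/-- the minimal period of a closed orbit -/
theorem exists_minper (hψ : LFlow k Y O ψ) {y : Y} (hy : y ∈ O) (hc : ∃ T : ℝ, T ≠ 0 ∧ ψ T y = y)
    (hn : ∃ t : ℝ, ψ t y ≠ y) : ∃ T : ℝ, 0 < T ∧ ψ T y = y ∧ ∀ t, 0 < t → t < T → ψ t y ≠ y := by
  obtain ⟨T, hT0, hT⟩ := hc
  obtain ⟨H, hH⟩ : ∃ H : AddSubgroup ℝ, ∀ t, t ∈ H ↔ ψ t y = y :=
    ⟨{ carrier := {t | ψ t y = y}
       add_mem' := fun {a b} ha hb => by
        show ψ (a + b) y = y
        rw [hψ.add _ _ y hy, show ψ b y = y from hb, show ψ a y = y from ha]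
       zero_mem' := hψ.zero y hy
       neg_mem' := fun {a} ha => by
        show ψ (-a) y = y
        have h1 := fl_neg hψ hy a
        rwa [show ψ a y = y from ha] at h1 }, fun t => Iff.rfl⟩
  rcases H.dense_or_cyclic with hd | ⟨a, ha⟩
  · exfalso
    obtain ⟨t, ht⟩ := hn
    apply ht
    have hcl : IsClosed {t : ℝ | ψ t y = y} :=
      isClosed_eq (orb_smooth hψ hy).continuous continuous_const
    have h1 : (H : Set ℝ) ⊆ {t : ℝ | ψ t y = y} := fun t ht => (hH t).1 ht
    have h2 : closure (H : Set ℝ) ⊆ {t : ℝ | ψ t y = y} := closure_minimal h1 hcl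
    exact h2 (hd t)
  · have ha0 : a ≠ 0 := by
      rintro rfl
      have h1 : T ∈ H := (hH T).2 hT
      rw [ha, AddSubgroup.closure_singleton_zero, AddSubgroup.mem_bot] at h1
      exact hT0 h1
    have hmem : ∀ t : ℝ, ψ t y = y → ∃ z : ℤ, z • a = t := by
      intro t ht
      have h1 : t ∈ H := (hH t).2 ht
      rw [ha, AddSubgroup.mem_closure_singleton] at h1
      exact h1
    have haH : ψ a y = y := (hH a).1 (by rw [ha]; exact AddSubgroup.mem_closure_singleton_self a)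
    refine ⟨|a|, abs_pos.2 ha0, ?_, ?_⟩
    · rcases abs_choice a with h1 | h1
      · rw [h1, haH]
      · rw [h1]
        have h2 := fl_neg hψ hy a
        rwa [haH] at h2
    · intro t ht0 ht1 ht
      obtain ⟨z, hz⟩ := hmem t ht
      have h1 : |(z : ℝ)| * |a| = t := by
        rw [← abs_mul, ← zsmul_eq_mul, hz, abs_of_pos ht0]
      have h2 : |(z : ℝ)| < 1 := by
        by_contra hcon
        push Not at hcon
        have := mul_le_mul_of_nonneg_right hcon (abs_nonneg a)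
        linarith
      have h3 : z = 0 := by
        have h4 : |z| < 1 := by exact_mod_cast h2
        exact Int.abs_lt_one_iff.1 h4
      rw [h3, zero_smul] at hz
      linarith

/-- A closed orbit of a flow which is mapped to itself by some power of `h`, such that `h` and the flow
commute on the orbit. -/
theorem circPt_of_comm {h : Y → Y} (hψ : LFlow k Y O ψ) {y : Y} (hy : y ∈ O)
    (hc : ∃ T : ℝ, T ≠ 0 ∧ ψ T y = y) (hn : ∃ t : ℝ, ψ t y ≠ y)
    (hq : ∃ q : ℕ, 1 ≤ q ∧ ∃ s, h^[q] y = ψ s y)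
    (hcomm : ∀ i : ℕ, 1 ≤ i → (h^[i] y ∈ O ∧ ∀ t, h^[i] (ψ t y) = ψ t (h^[i] y)) ∨
      ∀ s t, h^[i] (ψ s y) ≠ ψ t y) : CircPt k Y h y := by
  classical
  obtain ⟨T, hT0, hT, hmin⟩ := exists_minper hψ hy hc hn
  obtain ⟨q, hqd⟩ : ∃ q, q = Nat.find hq := ⟨_, rfl⟩
  obtain ⟨hq1, s, hs⟩ : 1 ≤ q ∧ ∃ s, h^[q] y = ψ s y := by
    rw [hqd]
    exact Nat.find_spec hq
  have hqmin : ∀ i, 1 ≤ i → i < q → ∀ s, h^[i] y ≠ ψ s y := by
    intro i hi1 hi2 s hs
    rw [hqd] at hi2
    exact Nat.find_min hq hi2 ⟨hi1, s, hs⟩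
  refine ⟨O, fun t y => ψ (T * t) y, q, fun t => t + s / T, fl_scale hψ T, hy, ?_, ?_, hq1,
    isLift_rot _, notLocked_rot _, ?_, ?_⟩
  · show ψ (T * 1) y = y
    rw [mul_one, hT]
  · intro t ht0 ht1
    apply hmin
    · positivity
    · nlinarith
  · intro t
    show h^[q] (ψ (T * t) y) = ψ (T * (t + s / T)) y
    rcases hcomm q hq1 with ⟨-, h1⟩ | h1
    · rw [h1, hs, ← hψ.add _ _ y hy]
      congr 1
      field_simp
    · exfalso
      apply h1 0 s
      rw [hψ.zero y hy, hs]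
  · intro i hi1 hi2 s' t' hst
    rcases hcomm i hi1 with ⟨h0, h1⟩ | h1
    · apply hqmin i hi1 hi2 (T * t' - T * s')
      have h2 : ψ (T * s') (h^[i] y) = ψ (T * t') y := by
        rw [← h1]
        exact hst
      have h3 := fl_neg hψ h0 (T * s')
      rw [h2, ← hψ.add _ _ y hy] at h3
      rw [← h3]
      congr 1
      ring
    · exact h1 _ _ hst

end

end Pool.Agent.H73FC
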