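import Pool.Agent.H73FC.Lim

/-!
# The `C^r` closing lemma on compact unions of closed orbits with a circle factor

`V n = ℝⁿ`, `DiffM n N r = Diff^r(N)`, `strongTop n N r` is its strong (Whitney) `C^r` topology (the
usual one, `N` being compact), `IsPer G z`: `z` is periodic for `G` (`Pool/Agent/H718R2/G0.lean`);
`LFlow n N O A`: `A` is a smooth action of `ℝ` on the open set `O` (a flow); `IsLift G`, `rho G`,
`NotLocked G`: `G` is a lift of an orientation preserving `C²` diffeomorphism of the circle, its rotation
number, and the condition that the rotation number of `G (· + s)` is not constant for `s` near `0`, for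
example `rho G` is irrational (`Pool/Agent/N102/CF/Defs.lean`).

From `Pool/Agent/H73FC/Defs.lean`:
* `FClock n N F O K A a G e`: the compact set `K ⊆ O` is a union of closed orbits, of period `1`, of a
  smooth flow `A` on the open set `O`; the smooth function `a : O → ℂ` is on `K` a clock,
  `a (A_t y) = exp(2πit) a(y)`, `|a(y)| = 1`; the map `F^e` maps the closed orbits in `K` to closed
  orbits in `K`, in an arbitrary way, and covers the circle diffeomorphism with the lift `G`; the sets
  `F^i(K)`, `0 < i < e`, do not meet `K`. The flow need not be periodic outside of `K`, and `K` can be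
  isolated among the closed orbits;
* `IsFClockPt n N F y`: `y` lies in such a set `K`, with `NotLocked G`, and the closed orbit of `y` is
  nonwandering in `K` for the powers of `F^e` (`CircRec`), which is the case if `y` is recurrent.
-/

set_option autoImplicit false

open scoped Manifold ContDiff Topology

universe u

namespace Pool.Agent.H73FC.ClosedOrbitClocks

open Pool.Agent.H718R2.G Pool.Agent.H73FC

/-- Let `N` be a closed manifold, `1 ≤ r ≤ ∞`, `F ∈ Diff^r(N)` and `z ∈ N`. Suppose that arbitrarily
`C^r`-close to `F` there are diffeomorphisms `F'` (for example `F' = F`) for which `z` is a limit of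
points `y` of the following kind: `y` lies in a compact set `K` which is a union of closed orbits of
period `1` of a smooth flow defined on a neighbourhood of `K` (the flow need not be periodic outside of
`K`), an iterate of `F'` maps the closed orbits in `K` to closed orbits in `K` and covers, on the clock
of the flow, a circle diffeomorphism whose rotation number is not locked, and the closed orbit of `y` is
nonwandering in `K` for the powers of this iterate. Then the conclusion of the `C^r` closing lemma holds
for `F` at `z`. -/
theorem closing_of_closed_orbit_clocks {n : ℕ} {N : Type u} [TopologicalSpace N] [T2Space N] [CompactSpace N]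
    [ChartedSpace (V n) N] [IsManifold (𝓡 n) ∞ N] (r : ℕ∞) (hr : 1 ≤ r) (F : DiffM n N r) (z : N)
    (h : ∀ U : Set (DiffM n N r), IsOpen[strongTop n N r] U → F ∈ U →
      ∃ F' ∈ U, z ∈ closure {y | IsFClockPt n N F' y}) :
    ∀ U : Set (DiffM n N r), IsOpen[strongTop n N r] U → F ∈ U → ∃ G ∈ U, IsPer G z :=
  H73FC.main r hr F z h

end Pool.Agent.H73FC.ClosedOrbitClocks
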