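import Pool.Agent.H73FC.Sl2

/-!
# Special cases: closed orbits of commuting flows, translations of `SL(d, ℝ) / Γ`
-/

set_option autoImplicit false
set_option linter.unusedSectionVars false

open scoped Manifold ContDiff Topology
open Filter Set Metric

universe u v

namespace Pool.Agent.H73FC

open Pool.Agent.H718R2.G Pool.Agent.W564.SC Pool.Agent.TH80.CLX Pool.Agent.TH382.HS
open Pool.Agent.Y271.CP Pool.Agent.TH382.QC Pool.Agent.Y368.SLD

section

variable {m k n : ℕ} {M : Type*} [TopologicalSpace M] [ChartedSpace (V m) M]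
  {Y : Type*} [TopologicalSpace Y] [T2Space Y] [CompactSpace Y] [ChartedSpace (V k) Y]
  [IsManifold (𝓡 k) ∞ Y] {N : Type u} [TopologicalSpace N] [T2Space N] [CompactSpace N]
  [ChartedSpace (V n) N] [IsManifold (𝓡 n) ∞ N] {r : ℕ∞}

/-- products with maps for which all products can be closed over `y` -/
theorem closable_prod {Θ : ProdDiffeo m k n M Y N} {h : DiffM k Y r} {y : Y} (hsc : SC Θ r h y)
    (F : DiffM n N r) (f : M ≃ₜ M) (hF : ∀ x y, F (atP Θ x y) = atP Θ (f x) (h y)) (x : M)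
    (hx : IsRec f x) : ClosableAt n N r F (atP Θ x y) := by
  -- `M` is compact
  have hM : IsCompact (univ : Set M) := by
    have h1 : (univ : Set M) = (fun z : N => (Θ.symm z).1) '' univ := by
      rw [image_univ]
      symm
      rw [range_eq_univ]
      intro x'
      exact ⟨atP Θ x' y, fst_atP Θ x' y⟩
    rw [h1]
    exact isCompact_univ.image (continuous_fst.comp Θ.symm.continuous)
  obtain ⟨e, he⟩ : ∃ e : (univ : Set M) ≃ₜ M, ∀ l, e l = l.1 := ⟨Homeomorph.Set.univ M, fun l => rfl⟩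
  have he' : ∀ x, ((e.symm x : (univ : Set M)) : M) = x := by
    intro x
    rw [← he, e.apply_symm_apply]
  refine hsc F univ (e.trans (f.trans e.symm)) x (mem_univ x) hM ?_ ?_
  · intro d hd W hW
    have h1 := nonWandAll_of_rec f x hx d hd (e.symm ⁻¹' W) (by
      apply e.symm.continuous.continuousAt.preimage_mem_nhds
      have h2 : e.symm x = ⟨x, mem_univ x⟩ := by
        apply Subtype.ext
        exact he' x
      rw [h2]
      exact hW)
    obtain ⟨c, hc, w, hw1, hw2⟩ := h1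
    refine ⟨c, hc, e.symm w, hw1, ?_⟩
    rw [← Function.iterate_mul] at hw2 ⊢
    have h3 : ∀ (i : ℕ) (w : M), (e.trans (f.trans e.symm))^[i] (e.symm w) = e.symm (f^[i] w) := by
      intro i
      induction i with
      | zero => intro w; rfl
      | succ i ih =>
        intro w
        rw [Function.iterate_succ_apply, Function.iterate_succ_apply, ← ih]
        congr 1
        show e.symm (f (e (e.symm w))) = e.symm (f w)
        rw [e.apply_symm_apply]
    rw [h3]
    exact hw2
  · intro l y'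
    show F (atP Θ l y') = atP Θ ((e.symm (f (e l)) : (univ : Set M)) : M) (h y')
    rw [hF, he', he]

/-- Closed orbits of commuting flows. -/
theorem sc_of_commuting (hr : 1 ≤ r) {Θ : ProdDiffeo m k n M Y N} (h : DiffM k Y r)
    {ψ : ℝ → Y → Y} (hψ : LFlow k Y univ ψ) (hcomm : ∀ t y, h (ψ t y) = ψ t (h y)) (y : Y)
    (hy : y ∈ closure {y' | (∃ T : ℝ, T ≠ 0 ∧ ψ T y' = y') ∧ (∃ t : ℝ, ψ t y' ≠ y') ∧
      ∃ q : ℕ, 1 ≤ q ∧ ∃ s, h^[q] y' = ψ s y'}) : SC Θ r h y := by
  apply sc_closure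
  refine closure_mono ?_ hy
  rintro y' ⟨h1, h2, h3⟩
  apply sc_of_circ hr
  refine circPt_of_comm hψ (mem_univ _) h1 h2 h3 fun i _ => Or.inl ⟨mem_univ _, fun t => ?_⟩
  induction i generalizing y' with
  | zero => rfl
  | succ i ih =>
    have h4 : ∀ (i : ℕ) (t : ℝ) (y : Y), h^[i] (ψ t y) = ψ t (h^[i] y) := by
      intro i t
      induction i with
      | zero => intro y; rfl
      | succ i ih =>
        intro y
        rw [Function.iterate_succ_apply, hcomm, ih, Function.iterate_succ_apply]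
    exact h4 _ _ _

/-- the diffeomorphism given by an element of `SL(d, ℝ)` -/
noncomputable def slD {d : ℕ} {ρ : SLd d → Y → Y} (hρ : IsSLdAction d k Y univ ρ) (r : ℕ∞)
    (g : SLd d) : DiffM k Y r where
  toFun := ρ g
  invFun := ρ g⁻¹
  left_inv y := by
    show ρ g⁻¹ (ρ g y) = y
    rw [← hρ.mul _ _ y (mem_univ _), inv_mul_cancel, hρ.one y (mem_univ _)]
  right_inv y := by
    show ρ g (ρ g⁻¹ y) = y
    rw [← hρ.mul _ _ y (mem_univ _), mul_inv_cancel, hρ.one y (mem_univ _)]
  contMDiff_toFun := by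
    have hr : (r : WithTop ℕ∞) ≤ ∞ := by exact_mod_cast le_top
    have h1 := hρ.smooth 0 (fun _ => g) (fun a b => contDiff_const)
    rw [univ_prod_univ, contMDiffOn_univ] at h1
    have h2 : ContMDiff (𝓡 k) ((𝓡 0).prod (𝓡 k)) ∞ (fun y : Y => ((0, y) : V 0 × Y)) :=
      contMDiff_const.prodMk contMDiff_id
    exact (h1.comp h2).of_le hr
  contMDiff_invFun := by
    have hr : (r : WithTop ℕ∞) ≤ ∞ := by exact_mod_cast le_top
    have h1 := hρ.smooth 0 (fun _ => g⁻¹) (fun a b => contDiff_const)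
    rw [univ_prod_univ, contMDiffOn_univ] at h1
    have h2 : ContMDiff (𝓡 k) ((𝓡 0).prod (𝓡 k)) ∞ (fun y : Y => ((0, y) : V 0 × Y)) :=
      contMDiff_const.prodMk contMDiff_id
    exact (h1.comp h2).of_le hr

theorem sc_translation (hr : 1 ≤ r) {Θ : ProdDiffeo m k n M Y N} {d : ℕ} (hd : 2 ≤ d)
    {ρ : SLd d → Y → Y} (hρ : IsSLdAction d k Y univ ρ) (g : SLd d) (y : Y)
    (hy : IsLatticePt ρ y) : SC Θ r (slD hρ r g) y := by
  apply sc_of_sl hd hr
  refine ⟨univ, ρ, hρ, mem_univ _, hy, 1, le_rfl, ⟨g, 1, 1, le_rfl, ?_, fun a => ?_⟩,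
    fun i h1 h2 => absurd h2 (by omega)⟩
  · rw [one_pow, hρ.one y (mem_univ _)]
  · show ρ g (ρ a y) = ρ (g * a * 1) y
    rw [mul_one, hρ.mul _ _ y (mem_univ _)]

end

end Pool.Agent.H73FC
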