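import Pool.Agent.N102.CF.Defs

/-!
# Closed orbits of flows as circle factors: definitions

`V n = ℝⁿ`, `DiffM n N r = Diff^r(N)`, `ex x = exp(2πix)`, `LFlow n N O A`: `A` is a smooth action of
`ℝ` on the open set `O ⊆ N` (a smooth flow); `IsLift G`, `NotLocked G`, `CircRec F K A e y`: see
`Pool/Agent/N102/CF/Defs.lean`.
-/

set_option autoImplicit false

open scoped Manifold ContDiff Topology
open Filter Set Metric

universe u

namespace Pool.Agent.H73FC

open Pool.Agent.H718R2.G Pool.Agent.W564.SC Pool.Agent.TH290.CL Pool.Agent.TH80.CLX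
open Pool.Agent.N102.CF

/-- The compact set `K` is a union of closed orbits, of period `1`, of a smooth flow `A`, which is
defined on an open set `O ⊇ K` (for example `O = N`); the flow need not be periodic outside of `K`, and
`K` need not have a neighbourhood which is a union of closed orbits. The smooth function `a : O → ℂ` has
modulus one on `K` and `a (A_t y) = exp(2πit) a(y)` for `y ∈ K`. The set `K` is periodic under `F` of
period `e`: `F^e(K) ⊆ K`, and `F^i(K)` does not meet `K` for `0 < i < e`. The map `F^e` maps the closed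
orbits in `K` to closed orbits, in an arbitrary way, and covers the circle diffeomorphism `g` with the
lift `G`: `a (F^e y) = g (a y)`, `g (ex x) = ex (G x)`. Nothing is required of `F` outside of
`K, F(K), ..., F^(e-1)(K)`. -/
structure FClock (n : ℕ) (N : Type*) [TopologicalSpace N] [ChartedSpace (V n) N] (F : N → N)
    (O K : Set N) (A : ℝ → N → N) (a : N → ℂ) (G : ℝ → ℝ) (e : ℕ) : Prop where
  flow : LFlow n N O A
  smooth : ContMDiffOn (𝓡 n) 𝓘(ℝ, ℂ) ∞ a O
  sub : K ⊆ O
  compact : IsCompact K
  invA : ∀ t, ∀ y ∈ K, A t y ∈ K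
  per : ∀ y ∈ K, A 1 y = y
  norm : ∀ y ∈ K, ‖a y‖ = 1
  equi : ∀ t, ∀ y ∈ K, a (A t y) = ex t * a y
  pos : 1 ≤ e
  inv : ∀ y ∈ K, F^[e] y ∈ K
  disj : ∀ y ∈ K, ∀ i, 0 < i → i < e → F^[i] y ∉ K
  circ : ∀ y ∈ K, ∀ t, ∃ s, F^[e] (A t y) = A s (F^[e] y)
  fac : ∀ y ∈ K, ∀ x : ℝ, a y = ex x → a (F^[e] y) = ex (G x)
  lift : IsLift G

/-- `y` lies in a compact union of closed orbits of a flow, on which some iterate of `F` has a circle
factor whose rotation number is not locked, and its closed orbit is nonwandering. -/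
def IsFClockPt (n : ℕ) (N : Type u) [TopologicalSpace N] [ChartedSpace (V n) N] (F : N → N)
    (y : N) : Prop :=
  ∃ (O K : Set N) (A : ℝ → N → N) (a : N → ℂ) (G : ℝ → ℝ) (e : ℕ),
    FClock n N F O K A a G e ∧ NotLocked G ∧ y ∈ K ∧ CircRec F K A e y

end Pool.Agent.H73FC
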