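import Pool.Agent.H73FC.Defs
import Pool.Agent.N102.CF.Basic

/-!
# A smooth clock for a closed orbit of a flow
-/

set_option autoImplicit false
set_option linter.unusedSectionVars false

open scoped Manifold ContDiff Topology
open Filter Set Metric

universe u

namespace Pool.Agent.H73FC

open Pool.Agent.H718R2.G Pool.Agent.W564.SC Pool.Agent.TH290.CL Pool.Agent.TH80.CLX
open Pool.Agent.N102.CF

/-- local inverses of smooth functions of one variable -/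
theorem local_inv (g : ℝ → ℝ) (hg : ContDiff ℝ ∞ g) (t₁ : ℝ) (h1 : deriv g t₁ ≠ 0) :
    ∃ (L : ℝ → ℝ) (S J : Set ℝ), IsOpen S ∧ IsOpen J ∧ t₁ ∈ J ∧ ContDiffOn ℝ ∞ L S ∧
      ∀ t ∈ J, g t ∈ S ∧ L (g t) = t := by
  have hd : HasDerivAt g (deriv g t₁) t₁ :=
    ((hg.differentiable (by simp)) t₁).hasDerivAt
  obtain ⟨f', hf'⟩ : ∃ f' : ℝ ≃L[ℝ] ℝ, f' = ContinuousLinearEquiv.unitsEquivAut ℝ (Units.mk0 _ h1) :=
    ⟨_, rfl⟩
  have hd' : HasFDerivAt g (f' : ℝ →L[ℝ] ℝ) t₁ := by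
    rw [hf']
    exact hd.hasFDerivAt_equiv h1
  have hg1 : ContDiffAt ℝ ∞ g t₁ := hg.contDiffAt
  obtain ⟨φ, hφ⟩ : ∃ φ : OpenPartialHomeomorph ℝ ℝ, φ = hg1.toOpenPartialHomeomorph g hd' (by simp) :=
    ⟨_, rfl⟩
  have hφg : ∀ x, φ x = g x := by
    intro x
    rw [hφ]
    rfl
  have hsrc : t₁ ∈ φ.source := by
    rw [hφ]
    exact hg1.mem_toOpenPartialHomeomorph_source hd' (by simp)
  have hc : Continuous (deriv g) := hg.continuous_deriv (by simp)
  have hopen : IsOpen {t : ℝ | deriv g t ≠ 0} := isOpen_ne.preimage hc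
  obtain ⟨φ', hφ'⟩ : ∃ φ' : OpenPartialHomeomorph ℝ ℝ, φ' = φ.restrOpen {t : ℝ | deriv g t ≠ 0} hopen :=
    ⟨_, rfl⟩
  have hs' : φ'.source = φ.source ∩ {t : ℝ | deriv g t ≠ 0} := by
    rw [hφ']
    rfl
  have hg' : ∀ x, φ' x = g x := by
    intro x
    rw [hφ', ← hφg]
    rfl
  refine ⟨φ'.symm, φ'.target, φ'.source, φ'.open_target, φ'.open_source, ?_, ?_, ?_⟩
  · rw [hs']
    exact ⟨hsrc, h1⟩
  · intro s hs
    have hsy := φ'.map_target hs
    rw [hs'] at hsy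
    apply ContDiffAt.contDiffWithinAt
    have hgs : ContDiffAt ℝ ∞ φ' (φ'.symm s) := by
      have e : (φ' : ℝ → ℝ) = g := funext hg'
      rw [e]
      exact hg.contDiffAt
    have hds : HasDerivAt φ' (deriv g (φ'.symm s)) (φ'.symm s) := by
      have e : (φ' : ℝ → ℝ) = g := funext hg'
      rw [e]
      exact ((hg.differentiable (by simp)) _).hasDerivAt
    exact φ'.contDiffAt_symm_deriv hsy.2 hs hds hgs
  · intro t ht
    rw [← hg']
    exact ⟨φ'.map_source ht, φ'.left_inv ht⟩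

variable {k : ℕ} {Y : Type u} [TopologicalSpace Y] [T2Space Y] [CompactSpace Y]
  [ChartedSpace (V k) Y] [IsManifold (𝓡 k) ∞ Y]

/-- The closed orbit of `y₀` has a clock which is a smooth function on `Y`. -/
theorem exists_clock {O : Set Y} {ψ : ℝ → Y → Y} (hψ : LFlow k Y O ψ) (y₀ : Y) (hy₀ : y₀ ∈ O)
    (h1 : ψ 1 y₀ = y₀) (hmin : ∀ t : ℝ, 0 < t → t < 1 → ψ t y₀ ≠ y₀) :
    ∃ a : Y → ℂ, ContMDiff (𝓡 k) 𝓘(ℝ, ℂ) ∞ a ∧ ∀ t, a (ψ t y₀) = ex t := by
  have hcO : ∀ t, ψ t y₀ ∈ O := fun t => hψ.maps t y₀ hy₀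
  have hadd : ∀ s t, ψ (s + t) y₀ = ψ s (ψ t y₀) := fun s t => hψ.add s t y₀ hy₀
  have hzero : ψ 0 y₀ = y₀ := hψ.zero y₀ hy₀
  -- integer times
  have hint : ∀ m : ℤ, ψ m y₀ = y₀ := by
    have hn : ∀ m : ℕ, ψ m y₀ = y₀ := by
      intro m
      induction m with
      | zero => rw [Nat.cast_zero]; exact hzero
      | succ m ih => rw [Nat.cast_succ, hadd, h1, ih]
    intro m
    obtain ⟨j, rfl | rfl⟩ := Int.eq_nat_or_neg m
    · exact_mod_cast hn j
    · have h2 := hadd (((-(j : ℤ) : ℤ)) : ℝ) (j : ℝ)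
      rw [hn j] at h2
      rw [← h2]
      push_cast
      rw [neg_add_cancel, hzero]
  have hcper : ∀ (t : ℝ) (m : ℤ), ψ (t + m) y₀ = ψ t y₀ := fun t m => by rw [hadd, hint]
  have hcinj : ∀ s t : ℝ, ψ s y₀ = ψ t y₀ → ∃ m : ℤ, s = t + m := by
    intro s t hst
    have h2 : ψ (s - t) y₀ = y₀ := by
      have h3 := congrArg (ψ (-t)) hst
      rw [← hadd, ← hadd, neg_add_cancel, hzero] at h3
      rw [← h3]
      congr 1
      ring
    refine ⟨⌊s - t⌋, ?_⟩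
    have h3 : ψ (Int.fract (s - t)) y₀ = y₀ := by
      have h4 := hcper (Int.fract (s - t)) ⌊s - t⌋
      rw [Int.fract_add_floor, h2] at h4
      exact h4.symm
    rcases eq_or_lt_of_le (Int.fract_nonneg (s - t)) with h4 | h4
    · have h5 := Int.fract_add_floor (s - t)
      rw [← h4] at h5
      linarith
    · exact absurd h3 (hmin _ h4 (Int.fract_lt_one _))
  have hcs : ContMDiff 𝓘(ℝ, ℝ) (𝓡 k) ∞ (fun t : ℝ => ψ t y₀) := by
    have h2 : ContMDiff 𝓘(ℝ, ℝ) (𝓘(ℝ, ℝ).prod (𝓡 k)) ∞ (fun t : ℝ => ((t, y₀) : ℝ × Y)) :=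
      contMDiff_id.prodMk contMDiff_const
    exact contMDiffOn_univ.1 (hψ.smooth.comp (f := fun t : ℝ => ((t, y₀) : ℝ × Y))
      h2.contMDiffOn (fun t _ => ⟨mem_univ _, hy₀⟩))
  have hcc : Continuous (fun t : ℝ => ψ t y₀) := hcs.continuous
  have hflow : ∀ t, ContMDiffOn (𝓡 k) (𝓡 k) ∞ (fun y => ψ t y) O := fun t => by
    have h2 : ContMDiff (𝓡 k) (𝓘(ℝ, ℝ).prod (𝓡 k)) ∞ (fun y : Y => ((t, y) : ℝ × Y)) :=
      contMDiff_const.prodMk contMDiff_id
    exact hψ.smooth.comp (f := fun y : Y => ((t, y) : ℝ × Y))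
      h2.contMDiffOn (fun y hy => ⟨mem_univ _, hy⟩)
  -- a smooth function which is not constant on the orbit
  have hne : ψ (1 / 2) y₀ ≠ y₀ := hmin _ (by norm_num) (by norm_num)
  obtain ⟨u, hu0, hu1, -⟩ := exists_contMDiffMap_zero_one_of_isClosed (n := ⊤) (𝓡 k)
    (isClosed_singleton (x := y₀)) (isClosed_singleton (x := ψ (1 / 2) y₀))
    (by rw [Set.disjoint_singleton]; exact hne.symm)
  have hus : ContMDiff (𝓡 k) 𝓘(ℝ, ℝ) ∞ (u : Y → ℝ) := u.contMDiff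
  obtain ⟨g, hgd⟩ : ∃ g : ℝ → ℝ, g = fun t => u (ψ t y₀) := ⟨_, rfl⟩
  have hgs : ContDiff ℝ ∞ g := by
    rw [hgd, ← contMDiff_iff_contDiff]
    exact hus.comp hcs
  obtain ⟨t₁, ht₁⟩ : ∃ t₁, deriv g t₁ ≠ 0 := by
    by_contra hcon
    push Not at hcon
    have h2 := is_const_of_deriv_eq_zero (hgs.differentiable (by simp)) hcon 0 (1 / 2)
    rw [hgd] at h2
    simp only at h2
    rw [hzero] at h2
    have h3 : u y₀ = 0 := hu0 (mem_singleton _)
    have h4 : u (ψ (1 / 2) y₀) = 1 := hu1 (mem_singleton _)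
    rw [h3, h4] at h2
    exact zero_ne_one h2
  obtain ⟨L, S, J, hS, hJ, htJ, hLs, hL⟩ := local_inv g hgs t₁ ht₁
  obtain ⟨δ, hδ, hδJ⟩ := Metric.isOpen_iff.1 hJ t₁ htJ
  -- the clock
  obtain ⟨T, hT⟩ : ∃ T : Y → Set ℂ, T = fun y => {w : ℂ | ∀ s : ℝ, y = ψ s y₀ → w = ex s} := ⟨_, rfl⟩
  have hconv : ∀ y, Convex ℝ (T y) := by
    intro y w₁ h₁ w₂ h₂ α β _ _ hαβ
    rw [hT] at h₁ h₂ ⊢
    intro s hs
    rw [h₁ s hs, h₂ s hs, ← add_smul, hαβ, one_smul]
  have hCc : IsCompact (range fun t : ℝ => ψ t y₀) := by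
    have h2 : (range fun t : ℝ => ψ t y₀) = (fun t : ℝ => ψ t y₀) '' Icc (0 : ℝ) 1 := by
      apply Subset.antisymm
      · rintro y ⟨t, rfl⟩
        refine ⟨Int.fract t, ⟨Int.fract_nonneg _, (Int.fract_lt_one _).le⟩, ?_⟩
        have h3 := hcper (Int.fract t) ⌊t⌋
        rw [Int.fract_add_floor] at h3
        exact h3.symm
      · exact image_subset_range _ _
    rw [h2]
    exact isCompact_Icc.image hcc
  have hloc : ∀ y : Y, ∃ U ∈ 𝓝 y, ∃ b : Y → ℂ, ContMDiffOn (𝓡 k) 𝓘(ℝ, ℂ) ∞ b U ∧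
      ∀ w ∈ U, b w ∈ T w := by
    intro y
    by_cases hy : y ∈ range fun t : ℝ => ψ t y₀
    · obtain ⟨t₀, rfl⟩ := hy
      obtain ⟨δ', hδ'0, hδ'1, hδ'2⟩ : ∃ δ' : ℝ, 0 < δ' ∧ δ' ≤ δ ∧ δ' ≤ 1 / 2 :=
        ⟨min δ (1 / 2), lt_min hδ (by norm_num), min_le_left _ _, min_le_right _ _⟩
      obtain ⟨D, hD⟩ : ∃ D : Set Y, D = (fun t : ℝ => ψ t y₀) '' Icc (t₀ + δ') (t₀ + 1 - δ') := ⟨_, rfl⟩
      have hDc : IsClosed D := by
        rw [hD]
        exact (isCompact_Icc.image hcc).isClosed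
      have hyD : ψ t₀ y₀ ∉ D := by
        rw [hD]
        rintro ⟨t, ⟨ht1, ht2⟩, ht⟩
        obtain ⟨m, hm⟩ := hcinj _ _ ht
        have h2 : (0 : ℝ) < m := by linarith
        have h3 : (m : ℝ) < 1 := by linarith
        have h4 : (0 : ℤ) < m := by exact_mod_cast h2
        have h5 : m < (1 : ℤ) := by exact_mod_cast h3
        omega
      obtain ⟨v, hv⟩ : ∃ v : Y → ℝ, v = fun y => u (ψ (t₁ - t₀) y) := ⟨_, rfl⟩
      have hvs : ContMDiffOn (𝓡 k) 𝓘(ℝ, ℝ) ∞ v O := by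
        rw [hv]
        exact hus.comp_contMDiffOn (hflow _)
      have hvg : ∀ t, v (ψ t y₀) = g (t₁ + (t - t₀)) := by
        intro t
        rw [hv, hgd]
        show u (ψ (t₁ - t₀) (ψ t y₀)) = u (ψ (t₁ + (t - t₀)) y₀)
        rw [← hadd]
        congr 2
        ring
      refine ⟨(O ∩ v ⁻¹' S) ∩ Dᶜ, ?_, fun y => ex (L (v y) + (t₀ - t₁)), ?_, ?_⟩
      · refine inter_mem ?_ (hDc.isOpen_compl.mem_nhds hyD)
        apply (hvs.continuousOn.isOpen_inter_preimage hψ.isOpen hS).mem_nhds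
        refine ⟨hcO t₀, ?_⟩
        show v (ψ t₀ y₀) ∈ S
        rw [hvg, sub_self, add_zero]
        exact (hL t₁ htJ).1
      · have h2 : ContMDiffOn (𝓡 k) 𝓘(ℝ, ℝ) ∞ (fun y => L (v y)) ((O ∩ v ⁻¹' S) ∩ Dᶜ) :=
          hLs.contMDiffOn.comp (hvs.mono (fun y hy => hy.1.1)) (fun y hy => hy.1.2)
        have h3 : ContDiff ℝ ∞ (fun x : ℝ => ex (x + (t₀ - t₁))) :=
          ex_smooth.comp (contDiff_id.add contDiff_const)
        exact h3.contMDiff.comp_contMDiffOn h2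
      · rintro w ⟨hw1, hw2⟩
        rw [hT]
        intro s hs
        -- choose the right representative
        obtain ⟨t, ht, m, hm⟩ : ∃ t : ℝ, |t - t₀| < δ ∧ ∃ m : ℤ, s = t + m := by
          obtain ⟨ρ, hρ⟩ : ∃ ρ : ℝ, ρ = Int.fract (s - t₀) := ⟨_, rfl⟩
          have hρ0 : 0 ≤ ρ := by rw [hρ]; exact Int.fract_nonneg _
          have hρ1 : ρ < 1 := by rw [hρ]; exact Int.fract_lt_one _
          have hs' : s = t₀ + ρ + (⌊s - t₀⌋ : ℤ) := by
            have := Int.fract_add_floor (s - t₀)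
            rw [← hρ] at this
            linarith
          rcases lt_or_ge ρ δ' with h4 | h4
          · refine ⟨t₀ + ρ, ?_, ⌊s - t₀⌋, hs'⟩
            rw [add_sub_cancel_left, abs_of_nonneg hρ0]
            linarith
          · rcases lt_or_ge (1 - δ') ρ with h5 | h5
            · refine ⟨t₀ + ρ - 1, ?_, ⌊s - t₀⌋ + 1, ?_⟩
              · rw [abs_of_neg (by linarith)]
                linarith
              · push_cast
                linarith
            · exfalso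
              apply hw2
              rw [hD]
              refine ⟨t₀ + ρ, ⟨by linarith, by linarith⟩, ?_⟩
              show ψ (t₀ + ρ) y₀ = w
              rw [hs, hs', hcper]
        have hwt : w = ψ t y₀ := by rw [hs, hm, hcper]
        have h6 : t₁ + (t - t₀) ∈ J := by
          apply hδJ
          rw [mem_ball, Real.dist_eq]
          have e : t₁ + (t - t₀) - t₁ = t - t₀ := by ring
          rw [e]
          exact ht
        show ex (L (v w) + (t₀ - t₁)) = ex s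
        rw [hwt, hvg, (hL _ h6).2, hm, ex_add_int]
        congr 1
        ring
    · refine ⟨(range fun t : ℝ => ψ t y₀)ᶜ, hCc.isClosed.isOpen_compl.mem_nhds hy, fun _ => 0,
        contMDiffOn_const, ?_⟩
      intro w hw
      rw [hT]
      intro s hs
      exact absurd ⟨s, hs.symm⟩ hw
  obtain ⟨a, ha⟩ := exists_contMDiffMap_forall_mem_convex_of_local (n := ⊤) (𝓡 k) hconv hloc
  refine ⟨a, a.contMDiff, fun t => ?_⟩
  have h2 := ha (ψ t y₀)
  rw [hT] at h2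
  exact h2 t rfl

end Pool.Agent.H73FC
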