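import Pool.Agent.H73FC.Tor
import Pool.Agent.Y368.SLD.DenseC

/-!
# One-parameter groups which commute with nice translations
-/

set_option autoImplicit false
set_option linter.unusedSectionVars false

open scoped Manifold ContDiff Topology
open Filter Set Metric

universe u v

namespace Pool.Agent.H73FC

open Pool.Agent.H718R2.G Pool.Agent.W564.SC Pool.Agent.TH80.CLX Pool.Agent.TH382.HS
open Pool.Agent.Y271.CP Pool.Agent.TH382.QC Pool.Agent.Y368.SLD

section frame

variable {d : ℕ} (f : Frame d)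

theorem hom_eq (s : V f.dim) : toC (f.hom s).1 =
    f.Q * Matrix.diagonal (fun i => Complex.exp ((f.co.symm s).1 i)) * f.R := f.tor_eq _

theorem mul_frame (D D' : Fin d → ℂ) :
    (f.Q * Matrix.diagonal D * f.R) * (f.Q * Matrix.diagonal D' * f.R) =
      f.Q * Matrix.diagonal (fun i => D i * D' i) * f.R := by
  have e : (f.Q * Matrix.diagonal D * f.R) * (f.Q * Matrix.diagonal D' * f.R) =
      f.Q * (Matrix.diagonal D * (f.R * f.Q) * Matrix.diagonal D') * f.R := by
    simp only [mul_assoc]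
  rw [e, f.RQ, mul_one, Matrix.diagonal_mul_diagonal]

theorem comm_of_frame {g g' : SLd d} {D D' : Fin d → ℂ}
    (h : toC g.1 = f.Q * Matrix.diagonal D * f.R) (h' : toC g'.1 = f.Q * Matrix.diagonal D' * f.R) :
    g * g' = g' * g := by
  apply Subtype.ext
  apply toC_inj
  rw [Matrix.SpecialLinearGroup.coe_mul, Matrix.SpecialLinearGroup.coe_mul, map_mul, map_mul, h, h',
    mul_frame, mul_frame]
  congr 3
  funext i
  rw [mul_comm]

theorem frame_inj {D D' : Fin d → ℂ}
    (h : f.Q * Matrix.diagonal D * f.R = f.Q * Matrix.diagonal D' * f.R) : D = D' := by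
  have h1 : ∀ D : Fin d → ℂ, f.R * (f.Q * Matrix.diagonal D * f.R) * f.Q = Matrix.diagonal D := by
    intro D
    have e : f.R * (f.Q * Matrix.diagonal D * f.R) * f.Q =
        (f.R * f.Q) * Matrix.diagonal D * (f.R * f.Q) := by simp only [mul_assoc]
    rw [e, f.RQ, one_mul, mul_one]
  have h2 : Matrix.diagonal D = Matrix.diagonal D' := by rw [← h1 D, h, h1]
  exact Matrix.diagonal_injective h2

theorem hom_line (σ : V f.dim) (hσ : ∀ t : ℝ, f.hom (t • σ) = 1) : σ = 0 := by
  have h1 : ∀ (t : ℝ) (i : Fin d), Complex.exp ((t : ℂ) * (f.co.symm σ).1 i) = 1 := by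
    intro t i
    have h2 := hom_eq f (t • σ)
    rw [hσ t] at h2
    have h3 : toC (1 : SLd d).1 = f.Q * Matrix.diagonal (fun _ => (1 : ℂ)) * f.R := by
      rw [Matrix.SpecialLinearGroup.coe_one, map_one, Matrix.diagonal_one, mul_one, f.QR]
    rw [h3] at h2
    have h4 := congrFun (frame_inj f h2) i
    have h5 : (f.co.symm (t • σ)).1 i = (t : ℂ) * (f.co.symm σ).1 i := by
      rw [map_smul]
      rfl
    rw [h5] at h4
    exact h4.symm
  have h2 : ∀ i, (f.co.symm σ).1 i = 0 := by
    intro i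
    have h3 : HasDerivAt (fun t : ℝ => Complex.exp ((t : ℂ) * (f.co.symm σ).1 i))
        ((f.co.symm σ).1 i) 0 := by
      have h4 : HasDerivAt (fun t : ℝ => (t : ℂ) * (f.co.symm σ).1 i) (1 * (f.co.symm σ).1 i) 0 :=
        (Complex.ofRealCLM.hasDerivAt (x := (0 : ℝ))).mul_const _
      have h5 := h4.cexp
      simpa using h5
    have h6 : (fun t : ℝ => Complex.exp ((t : ℂ) * (f.co.symm σ).1 i)) = fun _ => 1 := by
      funext t
      exact h1 t i
    rw [h6] at h3
    exact h3.unique (hasDerivAt_const _ _)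
  have h3 : f.co.symm σ = 0 := by
    apply Subtype.ext
    funext i
    exact h2 i
  have h4 := congrArg f.co h3
  rwa [f.co.apply_symm_apply, map_zero] at h4

end frame

section hom

variable {d j : ℕ} {c : V j → SLd d}

theorem homFam_cont (hc : IsHomFam c) : Continuous c :=
  continuous_induced_rng.2 (continuous_matrix fun a b => (hc.smooth a b).continuous)

theorem homFam_nsmul (hc : IsHomFam c) (s : V j) (q : ℕ) : c ((q : ℝ) • s) = c s ^ q := by
  induction q with
  | zero => rw [Nat.cast_zero, zero_smul, hc.zero, pow_zero]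
  | succ q ih => rw [Nat.cast_succ, add_smul, one_smul, hc.add, ih, pow_succ]

/-- a one-parameter group which fixes a point of a lattice quotient is trivial -/
theorem line_trivial {k : ℕ} {Y : Type*} [TopologicalSpace Y] [ChartedSpace (V k) Y] {O : Set Y}
    {act : SLd d → Y → Y} (hact : IsSLdAction d k Y O act) {y : Y} (hyO : y ∈ O)
    (hlat : IsLatticePt act y) (hc : IsHomFam c) (σ : V j) (g : SLd d)
    (hfix : ∀ t : ℝ, act (c (t • σ)) (act g y) = act g y) (t : ℝ) : c (t • σ) = 1 := by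
  obtain ⟨⟨W, hW, hWy⟩, -⟩ := hlat
  have h1 : ∀ t : ℝ, act (g⁻¹ * c (t • σ) * g) y = y := by
    intro t
    rw [mul_assoc, hact.mul _ _ y hyO, hact.mul _ _ y hyO, hfix, ← hact.mul _ _ y hyO,
      inv_mul_cancel, hact.one y hyO]
  have h2 : ∀ᶠ t in 𝓝 (0 : ℝ), g⁻¹ * c (t • σ) * g ∈ W := by
    have h3 : Continuous (fun t : ℝ => g⁻¹ * c (t • σ) * g) := by
      have h4 : Continuous (fun t : ℝ => c (t • σ)) :=
        (homFam_cont hc).comp (continuous_id.smul continuous_const)
      exact (continuous_const.mul h4).mul continuous_const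
    apply h3.continuousAt.preimage_mem_nhds
    rw [zero_smul, hc.zero, mul_one, inv_mul_cancel]
    exact hW
  have h3 : ∀ᶠ t in 𝓝 (0 : ℝ), c (t • σ) = 1 := by
    filter_upwards [h2] with t ht
    have h4 := hWy _ ht (h1 t)
    have h5 : c (t • σ) = g * (g⁻¹ * c (t • σ) * g) * g⁻¹ := by group
    rw [h5, h4]
    group
  obtain ⟨q, hq1, hq⟩ : ∃ q : ℕ, 1 ≤ q ∧ c ((t / q) • σ) = 1 := by
    have h4 : Tendsto (fun q : ℕ => t / (q : ℝ)) atTop (𝓝 0) := tendsto_const_div_atTop_nhds_zero_nat t
    obtain ⟨q, hq, hq1⟩ := ((h4.eventually h3).and (eventually_ge_atTop 1)).exists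
    exact ⟨q, hq1, hq⟩
  have hq0 : (q : ℝ) ≠ 0 := by
    have : (1 : ℝ) ≤ q := by exact_mod_cast hq1
    linarith
  have h4 : t • σ = (q : ℝ) • ((t / q) • σ) := by
    rw [smul_smul]
    congr 1
    field_simp
  rw [h4, homFam_nsmul hc, hq, one_pow]

end hom

end Pool.Agent.H73FC
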