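import Pool.Agent.H73FC.Step
import Pool.Agent.TH382.HS.Limit

/-!
# Closed orbits of flows as circle factors: limits
-/

set_option autoImplicit false
set_option linter.unusedSectionVars false

open scoped Manifold ContDiff Topology
open Filter Set Metric

universe u

namespace Pool.Agent.H73FC

open Pool.Agent.H718R2.G Pool.Agent.W564.SC Pool.Agent.TH290.CL Pool.Agent.TH80.CLX
open Pool.Agent.N102.CF Pool.Agent.N102.CF.Lim Pool.Agent.TH382.HS Pool.Agent.TH382.QC
open Pool.Agent.N102.CF.Pert (norm_V1)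

variable {n : ℕ} {N : Type u} [TopologicalSpace N] [T2Space N] [CompactSpace N]
  [ChartedSpace (V n) N] [IsManifold (𝓡 n) ∞ N]

/-- the property `FB`: the semistable periodic orbit of the clock does not contain `a y` -/
def FB (n : ℕ) (N : Type u) [TopologicalSpace N] [ChartedSpace (V n) N] (F : N → N)
    (y : N) : Prop :=
  ∃ (O K : Set N) (A : ℝ → N → N) (a : N → ℂ) (G : ℝ → ℝ) (e q : ℕ) (p : ℤ) (c x : ℝ),
    FClock n N F O K A a G e ∧ y ∈ K ∧ CircRec F K A e y ∧ 1 ≤ q ∧ (∀ u, u + p ≤ G^[q] u) ∧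
    G^[q] c = c + p ∧ a y = ex x ∧ ∀ i < q, ex (G^[i] c) ≠ ex x

/-- the property `FC` -/
def FC (n : ℕ) (N : Type u) [TopologicalSpace N] [ChartedSpace (V n) N] (F : N → N)
    (y : N) : Prop :=
  ∃ (O K : Set N) (A : ℝ → N → N) (a : N → ℂ) (G : ℝ → ℝ) (e q : ℕ) (p : ℤ) (c : ℝ),
    FClock n N F O K A a G e ∧ y ∈ K ∧ CircRec F K A e y ∧ 1 ≤ q ∧ (∀ u, u + p ≤ G^[q] u) ∧
    G^[q] c = c + p

theorem closable_of_FB (r : ℕ∞) (hr : 1 ≤ r) (F : DiffM n N r) (z : N)
    (h : FB n N F z) : Closable n N r F z := by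
  obtain ⟨O, K, A, a, G, e, q, p, c, x, hcl, hzK, hrec, hq, hGq, hGc, hax, hGx⟩ := h
  obtain ⟨γ, hγs, hγ0, hγ1, hγz⟩ := exists_bump (ex x) ((fun i : ℕ => ex (G^[i] c)) '' Iio q)
    ((finite_Iio q).image _) (by
      rintro ⟨i, hi, hix⟩
      exact hGx i hi hix)
  obtain ⟨H, κ, hκ, hH0, hfam, hH⟩ := pert r F hcl γ hγs
  apply closable_of_fam r hr F z H hH0 hfam
  intro κ' hκ'
  obtain ⟨t, ht0, ht1⟩ : ∃ t : ℝ, 0 < t ∧ t < min κ κ' := exists_between (lt_min hκ hκ')
  obtain ⟨s, hs⟩ : ∃ s : V 1, s = EuclideanSpace.single 0 t := ⟨_, rfl⟩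
  have hs0 : s 0 = t := by
    rw [hs]
    simp
  have hsn : ‖s‖ = t := by
    rw [norm_V1, hs0, abs_of_pos ht0]
  refine ⟨s, by rw [hsn]; exact ht1.trans_le (min_le_right _ _), ?_⟩
  obtain ⟨hcs, hcc⟩ := hH s (by rw [hsn]; exact ht1.trans_le (min_le_left _ _))
  rw [hs0] at hcs
  apply closable_of_goodPt r hr
  obtain ⟨B, hB⟩ : ∃ B : ℝ → ℝ, B = fun x => G (x + t * γ (ex x)) := ⟨_, rfl⟩
  rw [← hB] at hcs
  have hGm : StrictMono G := strictMono_of_deriv_pos hcl.lift.pos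
  have hGB : ∀ u, G u ≤ B u := by
    intro u
    rw [hB]
    apply hGm.monotone
    have := mul_nonneg ht0.le (hγ0 (ex u))
    linarith
  have hmono : ∀ (k : ℕ) (u : ℝ), G^[k] u ≤ B^[k] u := by
    intro k u
    induction k with
    | zero => exact le_rfl
    | succ k ih =>
      rw [Function.iterate_succ_apply', Function.iterate_succ_apply']
      exact (hGm.monotone ih).trans (hGB _)
  refine ⟨O, K, A, a, B, e, q, p, c, x, hcs, hzK, circRec hcl hcc z hrec, hq,
    fun u => (hGq u).trans (hmono q u), ?_, hax, ?_⟩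
  · have h1 : ∀ i : ℕ, i ≤ q → B^[i] c = G^[i] c := by
      intro i hi
      induction i with
      | zero => rfl
      | succ i ih =>
        rw [Function.iterate_succ_apply', Function.iterate_succ_apply', ih (by omega), hB]
        show G (G^[i] c + t * γ (ex (G^[i] c))) = _
        rw [hγz _ ⟨i, (by omega : i < q), rfl⟩, mul_zero, add_zero]
    rw [h1 q le_rfl, hGc]
  · obtain ⟨k, rfl⟩ : ∃ k, q = k + 1 := ⟨q - 1, by omega⟩
    refine (hGq x).trans_lt ?_
    rw [Function.iterate_succ_apply, Function.iterate_succ_apply]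
    have h1 : G x < B x := by
      rw [hB]
      apply hGm
      rw [hγ1, mul_one]
      linarith
    exact ((hGm.iterate k) h1).trans_le (hmono k _)

theorem closable_of_FC (r : ℕ∞) (hr : 1 ≤ r) (F : DiffM n N r)
    (z : N) (h : FC n N F z) : Closable n N r F z := by
  refine closable_of_limit F z fun U hU hFU => ⟨F, hFU, ?_⟩
  obtain ⟨O, K, A, a, G, e, q, p, c, hcl, hzK, hrec, hq, hGq, hGc⟩ := h
  have hzO := hcl.sub hzK
  obtain ⟨x, hx⟩ := exists_ex (a z) (hcl.norm z hzK)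
  rw [mem_closure_iff_nhds]
  intro W hW
  -- small shifts stay in `W`
  have h1 : ∀ᶠ t in 𝓝 (0 : ℝ), A t z ∈ W := by
    have h2 : ContinuousAt (fun t : ℝ => A t z) 0 := by
      have h3 : ContinuousAt (fun q : ℝ × N => A q.1 q.2) (0, z) :=
        (hcl.flow.at _ z hzO).continuousAt
      exact ContinuousAt.comp (g := fun q : ℝ × N => A q.1 q.2) (f := fun t : ℝ => (t, z)) h3
        (continuousAt_id.prodMk continuousAt_const)
    apply h2.eventually
    show ∀ᶠ y in 𝓝 (A 0 z), y ∈ W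
    rw [hcl.flow.zero z hzO]
    exact hW
  -- the bad shifts are countable
  have h2 : ({t : ℝ | ∀ i < q, ex (G^[i] c) ≠ ex (x + t)}ᶜ).Countable := by
    have h3 : {t : ℝ | ∀ i < q, ex (G^[i] c) ≠ ex (x + t)}ᶜ ⊆
        range (fun p : ℕ × ℤ => G^[p.1] c - x - p.2) := by
      intro t ht
      simp only [mem_compl_iff, mem_setOf_eq, not_forall, not_not] at ht
      obtain ⟨i, hi, hit⟩ := ht
      obtain ⟨l, hl⟩ := ex_eq_ex hit
      exact ⟨(i, l), by
        show G^[i] c - x - l = t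
        linarith⟩
    exact (countable_range _).mono h3
  have h3 : Dense {t : ℝ | ∀ i < q, ex (G^[i] c) ≠ ex (x + t)} := by
    have := h2.dense_compl ℝ
    rwa [compl_compl] at this
  obtain ⟨t, ht1, ht2⟩ := h3.inter_nhds_nonempty h1
  refine ⟨A t z, ht2, ?_⟩
  apply closable_of_FB r hr F (A t z)
  refine ⟨O, K, A, a, G, e, q, p, c, x + t, hcl, hcl.invA t z hzK, ?_, hq, hGq, hGc, ?_, ht1⟩
  · -- the circle of the shifted point
    intro W' hW' d hd
    have h4 : {y : N | y ∈ O ∧ A t y ∈ W'} ∈ 𝓝 z := by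
      have h5 : ContinuousAt (fun y : N => A t y) z := by
        have h6 : ContinuousAt (fun q : ℝ × N => A q.1 q.2) (t, z) :=
          (hcl.flow.at _ z hzO).continuousAt
        exact ContinuousAt.comp (g := fun q : ℝ × N => A q.1 q.2) (f := fun y : N => (t, y)) h6
          (continuousAt_const.prodMk continuousAt_id)
      filter_upwards [hcl.flow.isOpen.mem_nhds hzO, h5.preimage_mem_nhds hW'] with y hy1 hy2
      exact ⟨hy1, hy2⟩
    obtain ⟨m, hm, hdm, w, hw, hwK, s, hs⟩ := hrec _ h4 d hd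
    obtain ⟨s', hs'⟩ := hcl.iter_circ m w hwK t
    refine ⟨m, hm, hdm, A t w, hw.2, hcl.invA t w hwK, t + s - s', ?_⟩
    have h5 := hcl.sub (hcl.iter_mem m w hwK)
    rw [hs', ← hcl.flow.add _ _ _ h5, sub_add_cancel, hcl.flow.add _ _ _ h5]
    exact hs.2
  · rw [hcl.equi _ z hzK, hx, ← ex_add, add_comm]

theorem closable_of_fclockPt (r : ℕ∞) (hr : 1 ≤ r)
    (F : DiffM n N r) (z : N) (h : IsFClockPt n N F z) : Closable n N r F z := by
  obtain ⟨O, K, A, a, G, e, hcl, hG, hzK, hrec⟩ := h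
  obtain ⟨H, κ, hκ, hH0, hfam, hH⟩ := pert r F hcl (fun _ => 1) contDiff_const
  apply closable_of_fam r hr F z H hH0 hfam
  intro κ' hκ'
  obtain ⟨t, q, p, ht, hq, hGq, c, hGc⟩ := T2.t_T2 G hcl.lift hG (min κ κ') (lt_min hκ hκ')
  obtain ⟨s, hs⟩ : ∃ s : V 1, s = EuclideanSpace.single 0 t := ⟨_, rfl⟩
  have hs0 : s 0 = t := by
    rw [hs]
    simp
  have hsn : ‖s‖ = |t| := by
    rw [norm_V1, hs0]
  refine ⟨s, by rw [hsn]; exact ht.trans_le (min_le_right _ _), ?_⟩
  obtain ⟨hcs, hcc⟩ := hH s (by rw [hsn]; exact ht.trans_le (min_le_left _ _))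
  have hG' : (fun x => G (x + s 0 * (fun _ : ℂ => (1 : ℝ)) (ex x))) = fun x => G (x + t) := by
    funext x
    rw [hs0, mul_one]
  rw [hG'] at hcs
  exact closable_of_FC r hr (H s) z
    ⟨O, K, A, a, _, e, q, p, c, hcs, hzK, circRec hcl hcc z hrec, hq, hGq, hGc⟩

theorem main (r : ℕ∞) (hr : 1 ≤ r) (F : DiffM n N r) (z : N)
    (h : ∀ U : Set (DiffM n N r), IsOpen[strongTop n N r] U → F ∈ U →
      ∃ F' ∈ U, z ∈ closure {y | IsFClockPt n N F' y}) : Closable n N r F z := by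
  refine closable_of_limit F z fun U hU hFU => ?_
  obtain ⟨F', hF', hz⟩ := h U hU hFU
  exact ⟨F', hF', closure_mono (fun y hy => closable_of_fclockPt r hr F' y hy) hz⟩

end Pool.Agent.H73FC
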