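import Pool.Agent.H73FC.Basic
import Pool.Agent.N102.CF.Pert
import Pool.Agent.TH382.HS.Fam

/-!
# Closed orbits of flows as circle factors: perturbations along the closed orbits
-/

set_option autoImplicit false
set_option linter.unusedSectionVars false

open scoped Manifold ContDiff Topology
open Filter Set Metric

universe u

namespace Pool.Agent.H73FC

open Pool.Agent.H718R2.G Pool.Agent.W564.SC Pool.Agent.TH290.CL Pool.Agent.TH80.CLX
open Pool.Agent.N102.CF Pool.Agent.TH382.HS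
open Pool.Agent.N102.CF.Pert (lift_pert norm_V1)

variable {n : ℕ} {N : Type u} [TopologicalSpace N] [T2Space N] [CompactSpace N]
  [ChartedSpace (V n) N] [IsManifold (𝓡 n) ∞ N]

/-- Perturbation along the circles. -/
theorem pert (r : ℕ∞) (F : DiffM n N r) {O K : Set N} {A : ℝ → N → N} {a : N → ℂ} {G : ℝ → ℝ}
    {e : ℕ} (h : FClock n N F O K A a G e) (γ : ℂ → ℝ) (hγ : ContDiff ℝ ∞ γ) :
    ∃ (H : V 1 → DiffM n N r) (κ : ℝ), 0 < κ ∧ H 0 = F ∧ IsFam n N r H ∧ ∀ s : V 1, ‖s‖ < κ →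
      FClock n N (H s) O K A a (fun x => G (x + s 0 * γ (ex x))) e ∧
      ∀ y ∈ K, ∀ i : ℕ, 1 ≤ i → i ≤ e → ∃ t, (H s)^[i] y = F^[i] (A t y) := by
  classical
  -- sets
  obtain ⟨C0, hC0⟩ : ∃ C0 : Set N, C0 = ⋃ i ∈ Finset.Ico 1 e, F^[i] '' K := ⟨_, rfl⟩
  have hFc : ∀ i : ℕ, Continuous (F^[i]) := fun i => F.continuous.iterate i
  have hC0c : IsClosed C0 := by
    rw [hC0]
    exact isClosed_biUnion_finset fun i _ => (h.compact.image (hFc i)).isClosed
  have hdisj0 : Disjoint C0 K := by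
    rw [Set.disjoint_left]
    intro y hy1 hy2
    rw [hC0] at hy1
    simp only [mem_iUnion, Finset.mem_Ico] at hy1
    obtain ⟨i, ⟨hi1, hi2⟩, w, hw, hwy⟩ := hy1
    apply h.disj w hw i hi1 hi2
    rw [hwy]
    exact hy2
  obtain ⟨O₁, hO₁, hCO₁, hO₁O, hO₁c⟩ :=
    exists_open_between_and_isCompact_closure h.compact h.flow.isOpen h.sub
  have hD : IsClosed (C0 ∪ O₁ᶜ) := hC0c.union hO₁.isClosed_compl
  have hdisj : Disjoint (C0 ∪ O₁ᶜ) K := by
    rw [Set.disjoint_union_left]
    exact ⟨hdisj0, Set.disjoint_left.2 fun y hy hyC => hy (hCO₁ hyC)⟩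
  obtain ⟨f, hf0, hf1, -⟩ := exists_contMDiffMap_zero_one_of_isClosed (n := ⊤) (𝓡 n) hD
    h.compact.isClosed hdisj
  have hfs : ContMDiff (𝓡 n) 𝓘(ℝ, ℝ) ∞ (f : N → ℝ) := f.contMDiff
  obtain ⟨ρ, hρd⟩ : ∃ ρ : N → ℝ, ρ = fun y => if y ∈ O then f y * γ (a y) else 0 := ⟨_, rfl⟩
  have hρ : ContMDiff (𝓡 n) 𝓘(ℝ, ℝ) ∞ ρ := by
    intro y
    by_cases hy : y ∈ O
    · have e1 : ρ =ᶠ[𝓝 y] fun y => f y * γ (a y) := by
        filter_upwards [h.flow.isOpen.mem_nhds hy] with w hw
        rw [hρd]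
        exact if_pos hw
      refine ContMDiffAt.congr_of_eventuallyEq ?_ e1
      have h1 : ContMDiffAt (𝓡 n) 𝓘(ℝ, ℂ) ∞ a y :=
        h.smooth.contMDiffAt (h.flow.isOpen.mem_nhds hy)
      have h2 : ContMDiffAt (𝓡 n) 𝓘(ℝ, ℝ) ∞ (fun y => γ (a y)) y :=
        hγ.contMDiff.contMDiffAt.comp y h1
      have h3 : ContMDiffAt (𝓡 n) 𝓘(ℝ, ℝ × ℝ) ∞ (fun y => (f y, γ (a y))) y :=
        (hfs y).prodMk_space h2
      have h4 : ContDiff ℝ ∞ (fun p : ℝ × ℝ => p.1 * p.2) := contDiff_fst.mul contDiff_snd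
      exact h4.contMDiff.contMDiffAt.comp y h3
    · have hy' : y ∉ closure O₁ := fun hc => hy (hO₁O hc)
      have e1 : ρ =ᶠ[𝓝 y] fun _ => (0 : ℝ) := by
        filter_upwards [isClosed_closure.isOpen_compl.mem_nhds hy'] with w hw
        rw [hρd]
        by_cases hwO : w ∈ O
        · have h1 : f w = 0 := hf0 (Or.inr fun h2 => hw (subset_closure h2))
          show (if w ∈ O then f w * γ (a w) else 0) = 0
          rw [if_pos hwO, h1, zero_mul]
        · exact if_neg hwO
      exact contMDiffAt_const.congr_of_eventuallyEq e1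
  have hρK : ∀ y ∈ K, ρ y = γ (a y) := by
    intro y hy
    rw [hρd]
    show (if y ∈ O then f y * γ (a y) else 0) = _
    have h1 : f y = 1 := hf1 hy
    rw [if_pos (h.sub hy), h1, one_mul]
  have hρ00 : ∀ y, f y = 0 → ρ y = 0 := by
    intro y hy
    rw [hρd]
    show (if y ∈ O then f y * γ (a y) else 0) = 0
    split_ifs
    · rw [hy, zero_mul]
    · rfl
  have hρ0 : ∀ y ∈ O, y ∉ closure O₁ → ρ y = 0 := by
    intro y _ hyK
    apply hρ00
    apply hf0
    right
    intro h1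
    exact hyK (subset_closure h1)
  have hA : LAct 1 n N O (fun s y => A (s 0) y) :=
    { isOpen := h.flow.isOpen
      maps := fun s y hy => h.flow.maps _ y hy
      smooth := by
        have h1 : ContMDiff ((𝓡 1).prod (𝓡 n)) (𝓘(ℝ, ℝ).prod (𝓡 n)) ∞
            (fun p : V 1 × N => ((p.1 0, p.2) : ℝ × N)) := by
          refine ContMDiff.prodMk ?_ contMDiff_snd
          have h2 : ContDiff ℝ ∞ (fun s : V 1 => s 0) := by
            exact (EuclideanSpace.proj (0 : Fin 1) : EuclideanSpace ℝ (Fin 1) →L[ℝ] ℝ).contDiff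
          exact h2.contMDiff.comp contMDiff_fst
        exact h.flow.smooth.comp (f := fun p : V 1 × N => ((p.1 0, p.2) : ℝ × N)) h1.contMDiffOn
          (fun p hp => ⟨mem_univ _, hp.2⟩)
      zero := fun y hy => h.flow.zero y hy
      add := fun s t y hy => h.flow.add _ _ y hy }
  obtain ⟨H, κ₀, hκ₀, hH0, hfam, hH⟩ := lact_fam' hA hρ (closure O₁) hO₁c isClosed_closure hO₁O hρ0 r F
  obtain ⟨κ₁, hκ₁, hlift⟩ := lift_pert h.lift (fun x => γ (ex x)) (hγ.comp ex_smooth) (fun x => by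
    show γ (ex (x + 1)) = γ (ex x)
    have := ex_add_int x 1
    rw [Int.cast_one] at this
    rw [this])
  refine ⟨H, min κ₀ κ₁, lt_min hκ₀ hκ₁, hH0, hfam, fun s hs => ?_⟩
  have hHs := hH s (hs.trans_le (min_le_left _ _))
  have hHK : ∀ y ∈ K, H s y = F (A (s 0 * γ (a y)) y) := by
    intro y hy
    rw [hHs, if_pos (h.sub hy), hρK y hy]
    show F (A ((γ (a y) • s) 0) y) = _
    rw [PiLp.smul_apply, smul_eq_mul, mul_comm]
  have hit : ∀ i : ℕ, 1 ≤ i → i ≤ e → ∀ y ∈ K, (H s)^[i] y = F^[i] (A (s 0 * γ (a y)) y) := by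
    intro i hi
    induction i with
    | zero => omega
    | succ i ih =>
      intro hie y hy
      rcases Nat.eq_zero_or_pos i with h0 | h0
      · subst h0
        exact hHK y hy
      · rw [Function.iterate_succ_apply', ih h0 (by omega) y hy, hHs,
          Function.iterate_succ_apply' F]
        have h2 : ρ (F^[i] (A (s 0 * γ (a y)) y)) = 0 := hρ00 _ (hf0 (by
          left
          rw [hC0]
          simp only [mem_iUnion, Finset.mem_Ico]
          exact ⟨i, ⟨h0, by omega⟩, _, h.invA _ y hy, rfl⟩))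
        congr 1
        by_cases hO : F^[i] (A (s 0 * γ (a y)) y) ∈ O
        · rw [if_pos hO, h2, zero_smul]
          show A ((0 : V 1) 0) _ = _
          rw [PiLp.zero_apply, h.flow.zero _ hO]
        · rw [if_neg hO]
  have hite := hit e h.pos le_rfl
  -- the clock structure
  have key : FClock n N (H s) O K A a (fun x => G (x + s 0 * γ (ex x))) e :=
    { flow := h.flow
      per := h.per
      smooth := h.smooth
      norm := h.norm
      equi := h.equi
      sub := h.sub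
      compact := h.compact
      invA := h.invA
      pos := h.pos
      inv := fun y hy => by
        rw [hite y hy]
        exact h.inv _ (h.invA _ y hy)
      disj := fun y hy i hi1 hi2 => by
        rw [hit i hi1 hi2.le y hy]
        exact h.disj _ (h.invA _ y hy) i hi1 hi2
      circ := fun y hy t => by
        rw [hite _ (h.invA t y hy), hite y hy, ← h.flow.add _ _ y (h.sub hy)]
        obtain ⟨s1, hs1⟩ := h.circ y hy (s 0 * γ (a (A t y)) + t)
        obtain ⟨s2, hs2⟩ := h.circ y hy (s 0 * γ (a y))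
        refine ⟨s1 - s2, ?_⟩
        rw [hs1, hs2, ← h.flow.add _ _ _ (h.sub (h.inv y hy))]
        congr 1
        ring
      fac := fun y hy x hx => by
        rw [hite y hy]
        apply h.fac _ (h.invA _ y hy)
        rw [h.equi _ y hy, hx, ← ex_add, add_comm]
      lift := by
        apply hlift
        rw [← norm_V1]
        exact hs.trans_le (min_le_right _ _) }
  exact ⟨key, fun y hy i hi1 hi2 => ⟨_, hit i hi1 hi2 y hy⟩⟩

section transfer

variable {F F' : N → N} {O K : Set N} {A : ℝ → N → N} {a : N → ℂ} {G : ℝ → ℝ} {e : ℕ}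
  (h : FClock n N F O K A a G e)
  (hF' : ∀ y ∈ K, ∀ i : ℕ, 1 ≤ i → i ≤ e → ∃ t, F'^[i] y = F^[i] (A t y))

include h hF' in
/-- The perturbed orbit stays on the circles of the orbit. -/
theorem same_circ (l : ℕ) : ∀ w ∈ K, ∀ t, ∃ σ : ℝ, (F'^[e])^[l] (A t w) = A σ ((F^[e])^[l] w) := by
  intro w hw t
  induction l with
  | zero => exact ⟨t, rfl⟩
  | succ l ih =>
    obtain ⟨σ, hσ⟩ := ih
    rw [Function.iterate_succ_apply', Function.iterate_succ_apply', hσ]
    have h2 := h.iter_mem l w hw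
    obtain ⟨t', ht'⟩ := hF' _ (h.invA σ _ h2) e h.pos le_rfl
    rw [ht', ← h.flow.add _ _ _ (h.sub h2)]
    exact h.circ _ h2 _

include h hF' in
theorem circRec (y : N) (hy : CircRec F K A e y) : CircRec F' K A e y := by
  intro W hW d hd
  obtain ⟨m, hm, hdm, w, hw, hwK, t, ht⟩ := hy W hW d hd
  obtain ⟨σ, hσ⟩ := same_circ h hF' m w hwK 0
  rw [h.flow.zero w (h.sub hwK)] at hσ
  refine ⟨m, hm, hdm, w, hw, hwK, t - σ, ?_⟩
  rw [hσ, ← h.flow.add _ _ _ (h.sub (h.iter_mem m w hwK)), sub_add_cancel]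
  exact ht

end transfer

end Pool.Agent.H73FC
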