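import Pool.Agent.H73FC.SC

/-!
# Perturbations along a local action, near a compact invariant set
-/

set_option autoImplicit false
set_option linter.unusedSectionVars false

open scoped Manifold ContDiff Topology
open Filter Set Metric

universe u v

namespace Pool.Agent.H73FC

open Pool.Agent.H718R2.G Pool.Agent.W564.SC Pool.Agent.TH80.CLX Pool.Agent.TH382.HS

variable {k : ℕ} {Y : Type u} [TopologicalSpace Y] [T2Space Y] [CompactSpace Y]
  [ChartedSpace (V k) Y] [IsManifold (𝓡 k) ∞ Y] {r : ℕ∞}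

theorem pert_act {j : ℕ} {O : Set Y} {A : V j → Y → Y} (hA : LAct j k Y O A) {C : Set Y}
    (hC : IsCompact C) (hCO : C ⊆ O) (hinv : ∀ s, ∀ w ∈ C, A s w ∈ C) (h : DiffM k Y r) {m : ℕ}
    (hdis : ∀ i, 1 ≤ i → i < m → ∀ w ∈ C, h^[i] w ∉ C) :
    ∃ (H : V j → DiffM k Y r) (ε : ℝ), 0 < ε ∧ H 0 = h ∧ IsFam k Y r H ∧ ∀ t, ‖t‖ < ε →
      ∀ w ∈ C, ∀ i : ℕ, 1 ≤ i → i ≤ m → (H t)^[i] w = h^[i] (A t w) := by
  classical
  obtain ⟨C0, hC0⟩ : ∃ C0 : Set Y, C0 = ⋃ i ∈ Finset.Ico 1 m, h^[i] '' C := ⟨_, rfl⟩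
  have hFc : ∀ i : ℕ, Continuous (h^[i]) := fun i => h.continuous.iterate i
  have hC0c : IsClosed C0 := by
    rw [hC0]
    exact isClosed_biUnion_finset fun i _ => (hC.image (hFc i)).isClosed
  have hdisj0 : Disjoint C0 C := by
    rw [Set.disjoint_left]
    intro w hw1 hw2
    rw [hC0] at hw1
    simp only [mem_iUnion, Finset.mem_Ico] at hw1
    obtain ⟨i, ⟨hi1, hi2⟩, v, hv, hvw⟩ := hw1
    apply hdis i hi1 hi2 v hv
    rw [hvw]
    exact hw2
  obtain ⟨O₁, hO₁, hCO₁, hO₁O, hO₁c⟩ := exists_open_between_and_isCompact_closure hC hA.isOpen hCO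
  have hD : IsClosed (C0 ∪ O₁ᶜ) := hC0c.union hO₁.isClosed_compl
  have hdisj : Disjoint (C0 ∪ O₁ᶜ) C := by
    rw [Set.disjoint_union_left]
    exact ⟨hdisj0, Set.disjoint_left.2 fun w hw hwC => hw (hCO₁ hwC)⟩
  obtain ⟨f, hf0, hf1, -⟩ := exists_contMDiffMap_zero_one_of_isClosed (n := ⊤) (𝓡 k) hD
    hC.isClosed hdisj
  have hρ : ContMDiff (𝓡 k) 𝓘(ℝ, ℝ) ∞ (f : Y → ℝ) := f.contMDiff
  have hρ0 : ∀ w ∈ O, w ∉ closure O₁ → f w = 0 := by
    intro w _ hwK
    exact hf0 (Or.inr fun h1 => hwK (subset_closure h1))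
  obtain ⟨H, ε, hε, hH0, hfam, hH⟩ := lact_fam' hA hρ (closure O₁) hO₁c isClosed_closure hO₁O hρ0 r h
  refine ⟨H, ε, hε, hH0, hfam, ?_⟩
  intro t ht w hw i
  have hHs := hH t ht
  induction i with
  | zero => intro hi; omega
  | succ i ih =>
    intro _ him
    rcases Nat.eq_zero_or_pos i with h0 | h0
    · subst h0
      have h2 : f w = 1 := hf1 hw
      show H t w = h (A t w)
      rw [hHs, if_pos (hCO hw), h2, one_smul]
    · rw [Function.iterate_succ_apply', ih h0 (by omega), hHs,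
        Function.iterate_succ_apply' h]
      have h2 : f (h^[i] (A t w)) = 0 := hf0 (by
        left
        rw [hC0]
        simp only [mem_iUnion, Finset.mem_Ico]
        exact ⟨i, ⟨h0, by omega⟩, _, hinv t w hw, rfl⟩)
      congr 1
      by_cases hO : h^[i] (A t w) ∈ O
      · rw [if_pos hO, h2, zero_smul, hA.zero _ hO]
      · rw [if_neg hO]

end Pool.Agent.H73FC
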