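import Pool.Agent.H73FC.Circ
import Pool.Agent.H73FC.Ext
import Pool.Agent.H73FC.Lim
import Pool.Agent.TH290.CL.Rec

/-!
# Products of arbitrary maps with maps which have periodic circles
-/

set_option autoImplicit false
set_option linter.unusedSectionVars false

open scoped Manifold ContDiff Topology
open Filter Set Metric

universe u v

namespace Pool.Agent.H73FC

open Pool.Agent.H718R2.G Pool.Agent.W564.SC Pool.Agent.TH80.CLX Pool.Agent.N102.CF
open Pool.Agent.Y271.CP Pool.Agent.TH290.CL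

/-- recurrent points are nonwandering for all powers -/
theorem nonWandAll_of_rec {X : Type*} [TopologicalSpace X] (f : X ≃ₜ X) (x : X) (h : IsRec f x) :
    NonWandAll f x := by
  intro d hd W hW
  rcases rec_cases f x h with h1 | h1
  · obtain ⟨M, -, hM1, ⟨c, hc⟩, hM3, -⟩ := blocks (f : X → X) f.continuous x h1 W hW 0 d hd 1 one_pos 1
    refine ⟨c, ?_, x, mem_of_mem_nhds hW, ?_⟩
    · rcases Nat.eq_zero_or_pos c with h0 | h0
      · rw [h0, mul_zero] at hc
        omega
      · exact h0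
    · rw [← Function.iterate_mul, ← hc]
      exact hM3
  · obtain ⟨M, -, hM1, ⟨c, hc⟩, hM3, -⟩ :=
      blocks (f.symm : X → X) f.symm.continuous x h1 W hW 0 d hd 1 one_pos 1
    refine ⟨c, ?_, f.symm^[M] x, hM3, ?_⟩
    · rcases Nat.eq_zero_or_pos c with h0 | h0
      · rw [h0, mul_zero] at hc
        omega
      · exact h0
    · rw [← Function.iterate_mul, ← hc]
      have h2 : (f : X → X)^[M] (f.symm^[M] x) = x :=
        (Function.LeftInverse.iterate (fun y => f.apply_symm_apply y) M) x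
      rw [h2]
      exact mem_of_mem_nhds hW

section

variable {m k n : ℕ} {M : Type*} [TopologicalSpace M] [ChartedSpace (V m) M]
  {Y : Type*} [TopologicalSpace Y] [T2Space Y] [CompactSpace Y] [ChartedSpace (V k) Y]
  [IsManifold (𝓡 k) ∞ Y] {N : Type*} [TopologicalSpace N] [ChartedSpace (V n) N]

/-- the iterates of a product -/
theorem prod_iter {Θ : ProdDiffeo m k n M Y N} {F : N → N} {L : Set M} {f : L ≃ₜ L} {h : Y → Y}
    (hF : IsProd Θ F L f h) (i : ℕ) :
    ∀ (l : L) (y : Y), F^[i] (atP Θ l y) = atP Θ (f^[i] l : L) (h^[i] y) := by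
  induction i with
  | zero => intro l y; rfl
  | succ i ih =>
    intro l y
    rw [Function.iterate_succ_apply, hF l y, ih, Function.iterate_succ_apply,
      Function.iterate_succ_apply]

theorem snd_atP (Θ : ProdDiffeo m k n M Y N) (x : M) (y : Y) : (Θ.symm (atP Θ x y)).2 = y := by
  show (Θ.symm (Θ (x, y))).2 = y
  rw [Θ.symm_apply_apply]

theorem fst_atP (Θ : ProdDiffeo m k n M Y N) (x : M) (y : Y) : (Θ.symm (atP Θ x y)).1 = x := by
  show (Θ.symm (Θ (x, y))).1 = x
  rw [Θ.symm_apply_apply]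

theorem atP_symm (Θ : ProdDiffeo m k n M Y N) (z : N) : atP Θ (Θ.symm z).1 (Θ.symm z).2 = z :=
  Θ.apply_symm_apply z

/-- a local flow of `Y` acts on `M × Y` -/
theorem lift_flow (Θ : ProdDiffeo m k n M Y N) {O : Set Y} {ψ : ℝ → Y → Y} (hψ : LFlow k Y O ψ) :
    LFlow n N {z | (Θ.symm z).2 ∈ O} (fun t z => atP Θ (Θ.symm z).1 (ψ t (Θ.symm z).2)) where
  isOpen := hψ.isOpen.preimage (continuous_snd.comp Θ.symm.continuous)
  maps t z hz := by
    show (Θ.symm (atP Θ (Θ.symm z).1 (ψ t (Θ.symm z).2))).2 ∈ O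
    rw [snd_atP]
    exact hψ.maps t _ hz
  smooth := by
    have h1 : ContMDiff (𝓘(ℝ, ℝ).prod (𝓡 n)) (𝓘(ℝ, ℝ).prod (𝓡 k)) ∞
        (fun p : ℝ × N => ((p.1, (Θ.symm p.2).2) : ℝ × Y)) :=
      contMDiff_fst.prodMk (contMDiff_snd.comp (Θ.symm.contMDiff.comp contMDiff_snd))
    have h2 : ContMDiffOn (𝓘(ℝ, ℝ).prod (𝓡 n)) (𝓡 k) ∞
        (fun p : ℝ × N => ψ p.1 (Θ.symm p.2).2) (univ ×ˢ {z | (Θ.symm z).2 ∈ O}) :=
      hψ.smooth.comp (f := fun p : ℝ × N => ((p.1, (Θ.symm p.2).2) : ℝ × Y)) h1.contMDiffOn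
        (fun p hp => ⟨mem_univ _, hp.2⟩)
    have h3 : ContMDiffOn (𝓘(ℝ, ℝ).prod (𝓡 n)) (𝓡 m) ∞
        (fun p : ℝ × N => (Θ.symm p.2).1) (univ ×ˢ {z | (Θ.symm z).2 ∈ O}) :=
      (contMDiff_fst.comp (Θ.symm.contMDiff.comp contMDiff_snd)).contMDiffOn
    exact Θ.contMDiff.comp_contMDiffOn (h3.prodMk h2)
  zero z hz := by
    show atP Θ (Θ.symm z).1 (ψ 0 (Θ.symm z).2) = z
    rw [hψ.zero _ hz, atP_symm]
  add s t z hz := by
    show atP Θ (Θ.symm z).1 (ψ (s + t) (Θ.symm z).2) = atP Θ (Θ.symm (atP Θ (Θ.symm z).1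
      (ψ t (Θ.symm z).2))).1 (ψ s (Θ.symm (atP Θ (Θ.symm z).1 (ψ t (Θ.symm z).2))).2)
    rw [snd_atP, fst_atP, hψ.add _ _ _ hz]

/-- Products of arbitrary maps with maps which have periodic circles are circle factors. -/
theorem fclock_of_circ (Θ : ProdDiffeo m k n M Y N) (F : N → N) {L : Set M} (hL : IsCompact L)
    (f : L ≃ₜ L) (h : Y → Y) (hF : IsProd Θ F L f h) (x : M) (hx : x ∈ L)
    (hrec : NonWandAll f ⟨x, hx⟩) (y : Y) (hy : CircPt k Y h y) :
    IsFClockPt n N F (atP Θ x y) := by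
  obtain ⟨O, ψ, q, G, hψ, hyO, h1, hmin, hq, hG, hGN, hhq, hdis⟩ := hy
  obtain ⟨a, has, ha⟩ := exists_clock hψ y hyO h1 hmin
  have hcs := orb_smooth hψ hyO
  -- integer times
  have hint : ∀ j : ℤ, ψ j y = y := by
    have hn : ∀ j : ℕ, ψ j y = y := by
      intro j
      induction j with
      | zero => rw [Nat.cast_zero]; exact hψ.zero y hyO
      | succ j ih => rw [Nat.cast_succ, hψ.add _ _ y hyO, h1, ih]
    intro j
    obtain ⟨i, rfl | rfl⟩ := Int.eq_nat_or_neg j
    · exact_mod_cast hn i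
    · have h2 := fl_neg hψ hyO (i : ℝ)
      rw [hn i] at h2
      exact_mod_cast h2
  have hcper : ∀ (t : ℝ) (j : ℤ), ψ (t + j) y = ψ t y := fun t j => by
    rw [hψ.add _ _ y hyO, hint]
  obtain ⟨K, hK⟩ : ∃ K : Set N, K = {z | ∃ (l : L) (t : ℝ), z = atP Θ l (ψ t y)} := ⟨_, rfl⟩
  have hKmem : ∀ (l : L) (t : ℝ), atP Θ l (ψ t y) ∈ K := by
    intro l t
    rw [hK]
    exact ⟨l, t, rfl⟩
  have hKc : IsCompact K := by
    have h2 : K = (fun p : M × ℝ => Θ (p.1, ψ p.2 y)) '' (L ×ˢ Icc (0 : ℝ) 1) := by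
      rw [hK]
      ext z
      constructor
      · rintro ⟨l, t, rfl⟩
        refine ⟨(l, Int.fract t), ⟨l.2, ⟨Int.fract_nonneg _, (Int.fract_lt_one _).le⟩⟩, ?_⟩
        show Θ ((l : M), ψ (Int.fract t) y) = Θ ((l : M), ψ t y)
        have h3 := hcper (Int.fract t) ⌊t⌋
        rw [Int.fract_add_floor] at h3
        rw [h3]
      · rintro ⟨⟨l, t⟩, ⟨hl, -⟩, rfl⟩
        exact ⟨⟨l, hl⟩, t, rfl⟩
    rw [h2]
    apply (hL.prod isCompact_Icc).image
    exact Θ.continuous.comp (continuous_fst.prodMk (hcs.continuous.comp continuous_snd))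
  have hcl : FClock n N F {z | (Θ.symm z).2 ∈ O} K
      (fun t z => atP Θ (Θ.symm z).1 (ψ t (Θ.symm z).2)) (fun z => a (Θ.symm z).2) G q :=
    { flow := lift_flow Θ hψ
      smooth := (has.comp (contMDiff_snd.comp Θ.symm.contMDiff)).contMDiffOn
      sub := by
        rw [hK]
        rintro z ⟨l, t, rfl⟩
        show (Θ.symm (atP Θ l (ψ t y))).2 ∈ O
        rw [snd_atP]
        exact hψ.maps t y hyO
      compact := hKc
      invA := by
        intro t z hz
        rw [hK] at hz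
        obtain ⟨l, s, rfl⟩ := hz
        show atP Θ (Θ.symm (atP Θ l (ψ s y))).1 (ψ t (Θ.symm (atP Θ l (ψ s y))).2) ∈ K
        rw [snd_atP, fst_atP, ← hψ.add _ _ y hyO]
        exact hKmem _ _
      per := by
        intro z hz
        rw [hK] at hz
        obtain ⟨l, s, rfl⟩ := hz
        show atP Θ (Θ.symm (atP Θ l (ψ s y))).1 (ψ 1 (Θ.symm (atP Θ l (ψ s y))).2) =
          atP Θ l (ψ s y)
        rw [snd_atP, fst_atP, ← hψ.add _ _ y hyO, add_comm]
        have h2 := hcper s 1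
        rw [Int.cast_one] at h2
        rw [h2]
      norm := by
        intro z hz
        rw [hK] at hz
        obtain ⟨l, s, rfl⟩ := hz
        show ‖a (Θ.symm (atP Θ l (ψ s y))).2‖ = 1
        rw [snd_atP, ha, norm_ex]
      equi := by
        intro t z hz
        rw [hK] at hz
        obtain ⟨l, s, rfl⟩ := hz
        show a (Θ.symm (atP Θ (Θ.symm (atP Θ l (ψ s y))).1 (ψ t (Θ.symm (atP Θ l (ψ s y))).2))).2 =
          ex t * a (Θ.symm (atP Θ l (ψ s y))).2
        rw [snd_atP, snd_atP, ← hψ.add _ _ y hyO, ha, ha, ex_add]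
      pos := hq
      inv := by
        intro z hz
        rw [hK] at hz
        obtain ⟨l, s, rfl⟩ := hz
        rw [prod_iter hF, hhq]
        exact hKmem _ _
      disj := by
        intro z hz i hi1 hi2 hzK
        rw [hK] at hz hzK
        obtain ⟨l, s, rfl⟩ := hz
        obtain ⟨l', t, hlt⟩ := hzK
        rw [prod_iter hF] at hlt
        have h2 := congrArg (fun z => (Θ.symm z).2) hlt
        simp only [snd_atP] at h2
        exact hdis i hi1 hi2 s t h2
      circ := by
        intro z hz t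
        rw [hK] at hz
        obtain ⟨l, s, rfl⟩ := hz
        refine ⟨G (t + s) - G s, ?_⟩
        show F^[q] (atP Θ (Θ.symm (atP Θ l (ψ s y))).1 (ψ t (Θ.symm (atP Θ l (ψ s y))).2)) =
          atP Θ (Θ.symm (F^[q] (atP Θ l (ψ s y)))).1
            (ψ (G (t + s) - G s) (Θ.symm (F^[q] (atP Θ l (ψ s y)))).2)
        rw [snd_atP, fst_atP, ← hψ.add _ _ y hyO, prod_iter hF, prod_iter hF, snd_atP, fst_atP,
          hhq, hhq, ← hψ.add _ _ y hyO, sub_add_cancel]
      fac := by
        intro z hz u hu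
        rw [hK] at hz
        obtain ⟨l, s, rfl⟩ := hz
        have hu' : a (Θ.symm (atP Θ l (ψ s y))).2 = ex u := hu
        rw [snd_atP, ha] at hu'
        show a (Θ.symm (F^[q] (atP Θ l (ψ s y)))).2 = ex (G u)
        rw [prod_iter hF, snd_atP, hhq, ha]
        obtain ⟨j, hj⟩ := ex_eq_ex hu'
        have h2 : ∀ (j : ℤ) (u : ℝ), G (u + j) = G u + j := by
          have h3 : ∀ (j : ℕ) (u : ℝ), G (u + j) = G u + j := by
            intro j
            induction j with
            | zero => intro u; simp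
            | succ j ih =>
              intro u
              push_cast
              rw [← add_assoc, hG.add_one, ih]
              ring
          intro j u
          obtain ⟨i, rfl | rfl⟩ := Int.eq_nat_or_neg j
          · exact_mod_cast h3 i u
          · have h4 := h3 i (u + ((-(i : ℤ) : ℤ) : ℝ))
            have h5 : u + ((-(i : ℤ) : ℤ) : ℝ) + (i : ℝ) = u := by push_cast; ring
            rw [h5] at h4
            rw [h4]
            push_cast
            ring
        have h6 : s = u + (j : ℝ) := by linarith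
        rw [h6, h2, ex_add_int]
      lift := hG }
  refine ⟨_, K, _, _, G, q, hcl, hGN, ?_, ?_⟩
  · have h2 := hKmem ⟨x, hx⟩ 0
    rwa [hψ.zero y hyO] at h2
  · -- nonwandering
    intro W hW d hd
    obtain ⟨W', hW'd⟩ : ∃ W' : Set L, W' = {l : L | atP Θ l y ∈ W} := ⟨_, rfl⟩
    have hW' : W' ∈ 𝓝 (⟨x, hx⟩ : L) := by
      have hc : Continuous (fun l : L => atP Θ l y) :=
        Θ.continuous.comp (continuous_subtype_val.prodMk continuous_const)
      rw [hW'd]
      exact hc.continuousAt.preimage_mem_nhds hW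
    obtain ⟨c, hc1, l, hl1, hl2⟩ := hrec (q * d) (Nat.mul_pos hq hd) W' hW'
    rw [← Function.iterate_mul] at hl2
    rw [hW'd] at hl1 hl2
    have h3 : ∀ j : ℕ, ∃ s : ℝ, (h^[q])^[j] y = ψ s y := by
      intro j
      induction j with
      | zero => exact ⟨0, (hψ.zero y hyO).symm⟩
      | succ j ih =>
        obtain ⟨s, hs⟩ := ih
        exact ⟨G s, by rw [Function.iterate_succ_apply', hs, hhq]⟩
    obtain ⟨s, hs⟩ := h3 (d * c)
    refine ⟨d * c, Nat.mul_pos hd hc1, dvd_mul_right _ _, atP Θ l y, hl1, ?_, -s, ?_⟩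
    · have h2 := hKmem l 0
      rwa [hψ.zero y hyO] at h2
    · show atP Θ (Θ.symm ((F^[q])^[d * c] (atP Θ l y))).1
        (ψ (-s) (Θ.symm ((F^[q])^[d * c] (atP Θ l y))).2) ∈ W
      rw [← Function.iterate_mul] at hs
      rw [← Function.iterate_mul, prod_iter hF, snd_atP, fst_atP, hs, fl_neg hψ hyO, ← mul_assoc]
      exact hl2

end

end Pool.Agent.H73FC
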