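import Pool.Agent.H73FC.Prod
import Pool.Agent.TH382.HS.Fam
import Pool.Agent.TH382.HS.Limit

/-!
# Closing for all products
-/

set_option autoImplicit false
set_option linter.unusedSectionVars false

open scoped Manifold ContDiff Topology
open Filter Set Metric

universe u v

namespace Pool.Agent.H73FC

open Pool.Agent.H718R2.G Pool.Agent.W564.SC Pool.Agent.TH80.CLX Pool.Agent.N102.CF
open Pool.Agent.Y271.CP Pool.Agent.TH290.CL Pool.Agent.TH382.QC Pool.Agent.TH382.HS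

section

variable {m k n : ℕ} {M : Type*} [TopologicalSpace M] [ChartedSpace (V m) M]
  {Y : Type*} [TopologicalSpace Y] [T2Space Y] [CompactSpace Y] [ChartedSpace (V k) Y]
  [IsManifold (𝓡 k) ∞ Y] {N : Type u} [TopologicalSpace N] [T2Space N] [CompactSpace N]
  [ChartedSpace (V n) N] [IsManifold (𝓡 n) ∞ N] {r : ℕ∞}

/-- All products of arbitrary maps with `h` can be closed over `y`. -/
def SC (Θ : ProdDiffeo m k n M Y N) (r : ℕ∞) (h : DiffM k Y r) (y : Y) : Prop :=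
  ∀ (F : DiffM n N r) (L : Set M) (f : L ≃ₜ L) (x : M) (hx : x ∈ L), IsCompact L →
    NonWandAll f ⟨x, hx⟩ → IsProd Θ F L f h → ClosableAt n N r F (atP Θ x y)

theorem sc_closure {Θ : ProdDiffeo m k n M Y N} {h : DiffM k Y r} {y : Y}
    (hy : y ∈ closure {y' | SC Θ r h y'}) : SC Θ r h y := by
  intro F L f x hx hL hrec hF
  refine closable_of_limit F _ fun U hU hFU => ⟨F, hFU, ?_⟩
  have hc : Continuous (fun y : Y => atP Θ x y) :=
    Θ.continuous.comp (continuous_const.prodMk continuous_id)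
  rw [mem_closure_iff_nhds] at hy ⊢
  intro W hW
  obtain ⟨y', hy1, hy2⟩ := hy _ (hc.continuousAt.preimage_mem_nhds hW)
  exact ⟨_, hy1, hy2 F L f x hx hL hrec hF⟩

/-- the product of the identity and `g` -/
noncomputable def liftD (Θ : ProdDiffeo m k n M Y N) (g : DiffM k Y r) : DiffM n N r where
  toFun z := Θ ((Θ.symm z).1, g (Θ.symm z).2)
  invFun z := Θ ((Θ.symm z).1, g.symm (Θ.symm z).2)
  left_inv z := by
    show Θ ((Θ.symm (Θ ((Θ.symm z).1, g (Θ.symm z).2))).1,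
      g.symm (Θ.symm (Θ ((Θ.symm z).1, g (Θ.symm z).2))).2) = z
    rw [Θ.symm_apply_apply, g.symm_apply_apply]
    exact Θ.apply_symm_apply z
  right_inv z := by
    show Θ ((Θ.symm (Θ ((Θ.symm z).1, g.symm (Θ.symm z).2))).1,
      g (Θ.symm (Θ ((Θ.symm z).1, g.symm (Θ.symm z).2))).2) = z
    rw [Θ.symm_apply_apply, g.apply_symm_apply]
    exact Θ.apply_symm_apply z
  contMDiff_toFun := by
    have hr : (r : WithTop ℕ∞) ≤ ∞ := by exact_mod_cast le_top
    have h1 : ContMDiff (𝓡 n) ((𝓡 m).prod (𝓡 k)) r Θ.symm := Θ.symm.contMDiff.of_le hr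
    have h2 : ContMDiff (𝓡 n) ((𝓡 m).prod (𝓡 k)) r
        (fun z => ((Θ.symm z).1, g (Θ.symm z).2)) :=
      (contMDiff_fst.comp h1).prodMk (g.contMDiff.comp (contMDiff_snd.comp h1))
    exact (Θ.contMDiff.of_le hr).comp h2
  contMDiff_invFun := by
    have hr : (r : WithTop ℕ∞) ≤ ∞ := by exact_mod_cast le_top
    have h1 : ContMDiff (𝓡 n) ((𝓡 m).prod (𝓡 k)) r Θ.symm := Θ.symm.contMDiff.of_le hr
    have h2 : ContMDiff (𝓡 n) ((𝓡 m).prod (𝓡 k)) r
        (fun z => ((Θ.symm z).1, g.symm (Θ.symm z).2)) :=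
      (contMDiff_fst.comp h1).prodMk (g.symm.contMDiff.comp (contMDiff_snd.comp h1))
    exact (Θ.contMDiff.of_le hr).comp h2

theorem liftD_apply (Θ : ProdDiffeo m k n M Y N) (g : DiffM k Y r) (x : M) (y : Y) :
    liftD Θ g (atP Θ x y) = atP Θ x (g y) := by
  show Θ ((Θ.symm (Θ (x, y))).1, g (Θ.symm (Θ (x, y))).2) = Θ (x, g y)
  rw [Θ.symm_apply_apply]

/-- the family of products -/
theorem lift_fam (Θ : ProdDiffeo m k n M Y N) {j : ℕ} {H : V j → DiffM k Y r} (hH : IsFam k Y r H)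
    (F : DiffM n N r) :
    IsFam n N r (fun t => F.trans ((liftD Θ (H 0).symm).trans (liftD Θ (H t)))) := by
  have hr : (r : WithTop ℕ∞) ≤ ∞ := by exact_mod_cast le_top
  intro z
  obtain ⟨P, hP⟩ : ∃ P : N → M × Y, P = fun z => Θ.symm (liftD Θ (H 0).symm (F z)) := ⟨_, rfl⟩
  have hPs : ContMDiff (𝓡 n) ((𝓡 m).prod (𝓡 k)) r P := by
    rw [hP]
    exact (Θ.symm.contMDiff.of_le hr).comp ((liftD Θ (H 0).symm).contMDiff.comp F.contMDiff)
  have e : (fun q : V j × N => (F.trans ((liftD Θ (H 0).symm).trans (liftD Θ (H q.1)))) q.2) =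
      fun q : V j × N => Θ ((P q.2).1, H q.1 (P q.2).2) := by
    funext q
    rw [hP]
    rfl
  rw [e]
  have h1 : ContMDiffAt ((𝓡 j).prod (𝓡 n)) (𝓡 m) r (fun q : V j × N => (P q.2).1) (0, z) :=
    (contMDiff_fst.comp (hPs.comp contMDiff_snd)).contMDiffAt
  have h2 : ContMDiff ((𝓡 j).prod (𝓡 n)) ((𝓡 j).prod (𝓡 k)) r
      (fun q : V j × N => ((q.1, (P q.2).2) : V j × Y)) :=
    contMDiff_fst.prodMk (contMDiff_snd.comp (hPs.comp contMDiff_snd))
  have h3 : ContMDiffAt ((𝓡 j).prod (𝓡 n)) (𝓡 k) r (fun q : V j × N => H q.1 (P q.2).2) (0, z) :=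
    ContMDiffAt.comp (g := fun q : V j × Y => H q.1 q.2)
      (f := fun q : V j × N => ((q.1, (P q.2).2) : V j × Y)) _ (hH (P z).2) h2.contMDiffAt
  exact ContMDiffAt.comp (g := Θ) (f := fun q : V j × N => ((P q.2).1, H q.1 (P q.2).2)) _
    (Θ.contMDiff.of_le hr).contMDiffAt (h1.prodMk h3)

/-- Limits along families. -/
theorem sc_fam {Θ : ProdDiffeo m k n M Y N} {j : ℕ} {H : V j → DiffM k Y r} (hH : IsFam k Y r H)
    {y : Y} (hf : ∃ᶠ t in 𝓝 (0 : V j), y ∈ closure {y' | SC Θ r (H t) y'}) :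
    SC Θ r (H 0) y := by
  intro F L f x hx hL hrec hF
  have hfam := lift_fam Θ hH F
  have e0 : F.trans ((liftD Θ (H 0).symm).trans (liftD Θ (H 0))) = F := by
    ext z
    show liftD Θ (H 0) (liftD Θ (H 0).symm (F z)) = F z
    obtain ⟨w, hw⟩ : ∃ w, w = F z := ⟨_, rfl⟩
    rw [← hw, ← atP_symm Θ w, liftD_apply, liftD_apply, (H 0).apply_symm_apply]
  apply closable_of_limit
  intro U hU hFU
  obtain ⟨s, hs, hPs⟩ := exists_seq_forall_of_frequently hf
  have hcv : Cv (fun i => F.trans ((liftD Θ (H 0).symm).trans (liftD Θ (H (s i))))) F := by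
    have h1 := Cv.fam Pool.Agent.W917.SC.comp hfam hs
    rwa [e0] at h1
  obtain ⟨i, hiU⟩ := (hcv.mem hU hFU).exists
  refine ⟨_, hiU, subset_closure ?_⟩
  refine sc_closure (hPs i) _ L f x hx hL hrec ?_
  intro l y'
  show liftD Θ (H (s i)) (liftD Θ (H 0).symm (F (atP Θ l y'))) = _
  rw [hF l y', liftD_apply, liftD_apply, (H 0).symm_apply_apply]

/-- circles -/
theorem sc_of_circ (hr : 1 ≤ r) {Θ : ProdDiffeo m k n M Y N} {h : DiffM k Y r} {y : Y}
    (hy : CircPt k Y h y) : SC Θ r h y := by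
  intro F L f x hx hL hrec hF
  exact closable_of_fclockPt r hr F _ (fclock_of_circ Θ F hL f h hF x hx hrec y hy)

end

end Pool.Agent.H73FC
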