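import Pool.Agent.H73FC.SC

/-!
# The closing property at limits of sequences
-/

set_option autoImplicit false
set_option linter.unusedSectionVars false

open scoped Manifold ContDiff Topology
open Filter Set Metric

universe u v

namespace Pool.Agent.H73FC

open Pool.Agent.H718R2.G Pool.Agent.W564.SC Pool.Agent.TH80.CLX Pool.Agent.N102.CF
open Pool.Agent.Y271.CP Pool.Agent.TH290.CL Pool.Agent.TH382.QC Pool.Agent.TH382.HS

section

variable {n : ℕ} {N : Type u} [TopologicalSpace N] [T2Space N] [CompactSpace N]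
  [ChartedSpace (V n) N] [IsManifold (𝓡 n) ∞ N] {r : ℕ∞}

/-- If `G m → F`, `y m → z` and `G m` can be closed at `y m`, then `F` can be closed at `z`. -/
theorem closable_of_seq2 (F : DiffM n N r) (z : N) (G : ℕ → DiffM n N r) (hG : Cv G F) (y : ℕ → N)
    (hy : Tendsto y atTop (𝓝 z)) (hp : ∀ᶠ m in atTop, ClosableAt n N r (G m) (y m)) :
    ClosableAt n N r F z := by
  have hcomp : S_COMP := Pool.Agent.W917.SC.comp
  intro U hU hFU
  obtain ⟨T, W, x, hW, hT0, hT1, hT2, hx, hTx⟩ := moves (n := n) r z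
  have hxy : Tendsto (fun m => x (y m)) atTop (𝓝 0) := hx.comp hy
  have c1 : Cv (fun m => T (x (y m))) (T 0) := Cv.fam hcomp hT1 hxy
  have c2 : Cv (fun m => (T (x (y m))).symm) (T 0).symm :=
    Cv.fam (H := fun a => (T a).symm) hcomp hT2 hxy
  have c3 := Cv.trans hcomp c1 (Cv.trans hcomp hG c2)
  have e0 : (T 0).trans (F.trans (T 0).symm) = F := by
    rw [hT0]
    ext y
    rfl
  rw [e0] at c3
  obtain ⟨m, ⟨h3, h4⟩, h5⟩ := (((c3.mem hU hFU).and (hy.eventually hW)).and hp).exists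
  obtain ⟨G', hG1, hG2⟩ := Cv.exists_seq hcomp (G m) (fun G => IsPer G (y m)) h5
  have c4 := Cv.trans hcomp (Cv.const (T (x (y m)))) (Cv.trans hcomp hG2
    (Cv.const (T (x (y m))).symm))
  obtain ⟨l, hl⟩ := (c4.mem hU h3).exists
  refine ⟨_, hl, per_conj (T (x (y m))) (f := G' l) (fun _ => rfl) ?_⟩
  rw [hTx _ h4]
  exact hG1 l

end

section

variable {m k n : ℕ} {M : Type*} [TopologicalSpace M] [ChartedSpace (V m) M]
  {Y : Type*} [TopologicalSpace Y] [T2Space Y] [CompactSpace Y] [ChartedSpace (V k) Y]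
  [IsManifold (𝓡 k) ∞ Y] {N : Type u} [TopologicalSpace N] [T2Space N] [CompactSpace N]
  [ChartedSpace (V n) N] [IsManifold (𝓡 n) ∞ N] {r : ℕ∞}

/-- Limits along sequences in families. -/
theorem sc_seq {Θ : ProdDiffeo m k n M Y N} {j : ℕ} {H : V j → DiffM k Y r} (hH : IsFam k Y r H)
    {y : Y} (s : ℕ → V j) (hs : Tendsto s atTop (𝓝 0)) (w : ℕ → Y) (hw : Tendsto w atTop (𝓝 y))
    (hp : ∀ᶠ i in atTop, SC Θ r (H (s i)) (w i)) : SC Θ r (H 0) y := by
  intro F L f x hx hL hrec hF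
  have hfam := lift_fam Θ hH F
  have e0 : F.trans ((liftD Θ (H 0).symm).trans (liftD Θ (H 0))) = F := by
    ext z
    show liftD Θ (H 0) (liftD Θ (H 0).symm (F z)) = F z
    obtain ⟨w, hw⟩ : ∃ w, w = F z := ⟨_, rfl⟩
    rw [← hw, ← atP_symm Θ w, liftD_apply, liftD_apply, (H 0).apply_symm_apply]
  have hcv : Cv (fun i => F.trans ((liftD Θ (H 0).symm).trans (liftD Θ (H (s i))))) F := by
    have h1 := Cv.fam Pool.Agent.W917.SC.comp hfam hs
    rwa [e0] at h1
  have hc : Continuous (fun y : Y => atP Θ x y) :=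
    Θ.continuous.comp (continuous_const.prodMk continuous_id)
  refine closable_of_seq2 F _ _ hcv (fun i => atP Θ x (w i)) ((hc.tendsto y).comp hw) ?_
  filter_upwards [hp] with i hi
  refine hi _ L f x hx hL hrec ?_
  intro l y'
  show liftD Θ (H (s i)) (liftD Θ (H 0).symm (F (atP Θ l y'))) = _
  rw [hF l y', liftD_apply, liftD_apply, (H 0).symm_apply_apply]

end

end Pool.Agent.H73FC
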