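import Pool.Agent.H73FC.Frame
import Pool.Agent.H73FC.SeqL

/-!
# Periodic homogeneous submanifolds `SL(d, ℝ) / Γ`
-/

set_option autoImplicit false
set_option linter.unusedSectionVars false

open scoped Manifold ContDiff Topology
open Filter Set Metric

universe u v

namespace Pool.Agent.H73FC

open Pool.Agent.H718R2.G Pool.Agent.W564.SC Pool.Agent.TH80.CLX Pool.Agent.TH382.HS
open Pool.Agent.Y271.CP Pool.Agent.TH382.QC Pool.Agent.Y368.SLD

section nice

variable {d : ℕ} {f : Frame d} {h : SLd d} {lam : Fin d → ℂ} {q : ℕ}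

theorem nice_prod (hn : Nice f h lam q) : ∏ i, ‖lam i‖ = 1 := by
  have h1 := toC_det h.1
  rw [hn.diag.eq', Matrix.det_mul, Matrix.det_mul, Matrix.det_diagonal, h.2,
    Complex.ofReal_one] at h1
  have h2 : f.Q.det * f.R.det = 1 := by
    rw [← Matrix.det_mul, f.QR, Matrix.det_one]
  have h3 : ∏ i, lam i = 1 := by
    calc ∏ i, lam i = (f.Q.det * f.R.det) * ∏ i, lam i := by rw [h2, one_mul]
      _ = f.Q.det * (∏ i, lam i) * f.R.det := by ring
      _ = 1 := h1
  rw [← norm_prod, h3, norm_one]

theorem nice_prod' (hn : Nice f h lam q) : ∏ i, lam i = 1 := by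
  have h1 := toC_det h.1
  rw [hn.diag.eq', Matrix.det_mul, Matrix.det_mul, Matrix.det_diagonal, h.2,
    Complex.ofReal_one] at h1
  have h2 : f.Q.det * f.R.det = 1 := by
    rw [← Matrix.det_mul, f.QR, Matrix.det_one]
  calc ∏ i, lam i = (f.Q.det * f.R.det) * ∏ i, lam i := by rw [h2, one_mul]
    _ = f.Q.det * (∏ i, lam i) * f.R.det := by ring
    _ = 1 := h1

/-- the power `h^q` lies on a one-parameter group of the torus -/
theorem nice_log [NeZero d] (hn : Nice f h lam q) : ∃ σ₀ : V f.dim, f.hom σ₀ = h ^ q := by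
  have hlam : ∀ i, ‖lam i‖ ≠ 0 := fun i => norm_ne_zero_iff.2 (hn.diag.ne i)
  obtain ⟨z, hz⟩ : ∃ z : Fin d → ℂ, z = fun i => (((q : ℝ) * Real.log ‖lam i‖ : ℝ) : ℂ) := ⟨_, rfl⟩
  have hzl : z ∈ f.lie := by
    refine ⟨fun i => ?_, ?_⟩
    · rw [hz]
      simp only
      rw [Complex.conj_ofReal, hn.norm_conj]
    · rw [hz]
      simp only
      rw [← Complex.ofReal_sum, ← Finset.mul_sum, ← Real.log_prod (fun i _ => hlam i), nice_prod hn,
        Real.log_one, mul_zero, Complex.ofReal_zero]
  refine ⟨f.co ⟨z, hzl⟩, ?_⟩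
  apply Subtype.ext
  apply toC_inj
  rw [hom_eq, hn.diag.pow, f.co.symm_apply_apply]
  congr 3
  funext i
  show Complex.exp (z i) = _
  rw [hn.pos, hz]
  simp only
  rw [← Complex.ofReal_exp]
  congr 1
  rw [Real.exp_nat_mul, Real.exp_log (lt_of_le_of_ne (norm_nonneg _) (hlam i).symm)]

theorem nice_comm (hn : Nice f h lam q) (s : V f.dim) : h * f.hom s = f.hom s * h :=
  comm_of_frame f hn.diag.eq' (hom_eq f s)

/-- the case of different moduli -/
theorem nice_close [NeZero d] (hn : Nice f h lam q) (hne : ∃ i j, ‖lam i‖ ≠ ‖lam j‖) {k : ℕ}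
    {Y : Type*} [TopologicalSpace Y]
    [ChartedSpace (V k) Y] {O : Set Y} {act : SLd d → Y → Y} (hact : IsSLdAction d k Y O act) {y : Y}
    (hyO : y ∈ O) (hlat : IsLatticePt act y) :
    ∃ (s : ℕ → V f.dim) (g : ℕ → SLd d) (κ : ℕ → ℕ), Tendsto s atTop (𝓝 0) ∧
      Tendsto g atTop (𝓝 1) ∧
      ∀ᶠ m in atTop, 1 ≤ κ m ∧ act ((h * f.hom (s m)) ^ κ m * g m) y = act (g m) y := by
  obtain ⟨i₀, j₀, hij₀⟩ := hne
  obtain ⟨P, Δ, hP, hΔ⟩ := hn.real_diag
  have hpos : ∀ i, 0 < ‖lam i‖ ^ q := fun i => pow_pos (norm_pos_iff.2 (hn.diag.ne i)) _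
  have hΓ := stab_lat hact hyO hlat
  have : SecondCountableTopology (Md d) :=
    inferInstanceAs (SecondCountableTopology (Fin d → Fin d → ℝ))
  have : SecondCountableTopology (SLd d) :=
    (⟨rfl⟩ : Topology.IsInducing (fun x : SLd d => x.1)).secondCountableTopology
  obtain ⟨B, hB⟩ := (𝓝 (1 : SLd d)).exists_antitone_basis
  have hne : ∃ i j, (fun i => ‖lam i‖ ^ q) i ≠ (fun i => ‖lam i‖ ^ q) j := by
    refine ⟨i₀, j₀, fun h1 => hij₀ ?_⟩
    exact (pow_left_inj₀ (norm_nonneg _) (norm_nonneg _)
      (by have := hn.two; omega : q ≠ 0)).1 h1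
  have hret := fun m => ret hΓ hn.two rfl hP (D := fun i => ‖lam i‖ ^ q) hpos hΔ hne (B m)
    (hB.1.mem_of_mem trivial)
  choose κ hk hka b hb b' hb' γ hγ hbγ using hret
  have hbt : Tendsto b atTop (𝓝 1) := hB.tendsto hb
  have hbt' : Tendsto b' atTop (𝓝 1) := hB.tendsto hb'
  have hvt : Tendsto (fun i => b i * (b' i)⁻¹) atTop (𝓝 1) := by
    have h1 := hbt.mul hbt'.inv
    rwa [inv_one, mul_one] at h1
  obtain ⟨c, hc, hc1, hgap⟩ := hn.gap
  obtain ⟨s, ξ, hs, hξ, hev⟩ := conj_seq f hn.diag hc hc1 κ hk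
    (fun m => hgap (κ m) (hk m) (hka m)) (fun i => b i * (b' i)⁻¹) hvt
  refine ⟨s, fun m => (ξ m)⁻¹ * b m, κ, hs, ?_, ?_⟩
  · have h1 := hξ.inv.mul hbt
    rwa [inv_one, mul_one] at h1
  · filter_upwards [hev] with m hm
    refine ⟨hk m, ?_⟩
    have e : (h * f.hom (s m)) ^ κ m * ((ξ m)⁻¹ * b m) = (ξ m)⁻¹ * b m * γ m := by
      have e1 : (h * f.hom (s m)) ^ κ m = (ξ m)⁻¹ * (ξ m * (h * f.hom (s m)) ^ κ m) := by group
      rw [e1, ← hm]
      calc (ξ m)⁻¹ * (b m * (b' m)⁻¹ * h ^ κ m * ξ m) * ((ξ m)⁻¹ * b m)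
          = (ξ m)⁻¹ * b m * (b' m)⁻¹ * (h ^ κ m * b m) := by group
        _ = _ := by
            rw [hbγ]
            group
    rw [e, hact.mul _ _ y hyO, show act (γ m) y = y from hγ m]

/-- the case of equal moduli: a closed one-parameter group commutes with `h` -/
theorem nice_elliptic (hd2 : 2 ≤ d) (hn : Nice f h lam q) (hall : ∀ i j, ‖lam i‖ = ‖lam j‖) :
    h ^ q = 1 ∧ ∃ σ : V f.dim, σ ≠ 0 ∧ f.hom σ = 1 := by
  have : NeZero d := ⟨by omega⟩
  have hdet := nice_prod hn
  have hone : ∀ i, ‖lam i‖ = 1 := by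
    intro i
    have h1 : ∏ j, ‖lam j‖ = ‖lam i‖ ^ d := by
      rw [Finset.prod_congr rfl (fun j _ => hall j i), Finset.prod_const, Finset.card_univ,
        Fintype.card_fin]
    rw [h1] at hdet
    exact (pow_eq_one_iff_of_nonneg (norm_nonneg _) (NeZero.ne d)).1 hdet
  refine ⟨?_, ?_⟩
  · apply Subtype.ext
    apply toC_inj
    rw [hn.diag.pow, Matrix.SpecialLinearGroup.coe_one, map_one]
    have e : (fun i => lam i ^ q) = fun _ => (1 : ℂ) := by
      funext i
      rw [hn.pos, hone, one_pow, Complex.ofReal_one]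
    rw [e, Matrix.diagonal_one, mul_one, f.QR]
  · -- there is a pair of conjugate eigenvalues
    obtain ⟨i, hi⟩ : ∃ i, f.τ i ≠ i := by
      by_contra hcon
      push Not at hcon
      have hreal : ∀ i, lam i = 1 ∨ lam i = -1 := by
        intro i
        have h1 : (starRingEnd ℂ) (lam i) = lam i := by rw [hn.diag.conj, hcon]
        obtain ⟨x, hx⟩ := Complex.conj_eq_iff_real.1 h1
        have h2 := hone i
        rw [hx, Complex.norm_real, Real.norm_eq_abs] at h2
        rw [hx]
        rcases abs_eq (zero_le_one) |>.1 h2 with h3 | h3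
        · left; rw [h3, Complex.ofReal_one]
        · right; rw [h3]; push_cast; rfl
      have hd : d = 2 := by
        by_contra hne
        have h0 : (⟨0, by omega⟩ : Fin d) ≠ ⟨1, by omega⟩ := by simp
        have h1 : (⟨0, by omega⟩ : Fin d) ≠ ⟨2, by omega⟩ := by simp
        have h2 : (⟨1, by omega⟩ : Fin d) ≠ ⟨2, by omega⟩ := by simp
        have e0 := fun h' => h0 (hn.inj _ _ h')
        have e1 := fun h' => h1 (hn.inj _ _ h')
        have e2 := fun h' => h2 (hn.inj _ _ h')
        rcases hreal ⟨0, by omega⟩ with a | a <;> rcases hreal ⟨1, by omega⟩ with b | b <;>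
          rcases hreal ⟨2, by omega⟩ with c | c
        · exact e0 (a.trans b.symm)
        · exact e0 (a.trans b.symm)
        · exact e1 (a.trans c.symm)
        · exact e2 (b.trans c.symm)
        · exact e2 (b.trans c.symm)
        · exact e1 (a.trans c.symm)
        · exact e0 (a.trans b.symm)
        · exact e0 (a.trans b.symm)
      subst hd
      have h1 := nice_prod' hn
      rw [Fin.prod_univ_two] at h1
      have h2 : lam 0 ≠ lam 1 := fun h' => by
        have := hn.inj _ _ h'
        simp at this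
      rcases hreal 0 with a | a <;> rcases hreal 1 with b | b
      · exact h2 (a.trans b.symm)
      · rw [a, b] at h1
        norm_num at h1
      · rw [a, b] at h1
        norm_num at h1
      · exact h2 (a.trans b.symm)
    classical
    obtain ⟨z, hz⟩ : ∃ z : Fin d → ℂ, z = fun l => if l = i then 2 * Real.pi * Complex.I else
      if l = f.τ i then -(2 * Real.pi * Complex.I) else 0 := ⟨_, rfl⟩
    have hconj : (starRingEnd ℂ) (2 * Real.pi * Complex.I) = -(2 * Real.pi * Complex.I) := by
      rw [map_mul, map_mul, Complex.conj_I, Complex.conj_ofReal]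
      have : (starRingEnd ℂ) (2 : ℂ) = 2 := by
        rw [Complex.conj_eq_iff_real]
        exact ⟨2, by norm_num⟩
      rw [this]
      ring
    have hzl : z ∈ f.lie := by
      refine ⟨fun l => ?_, ?_⟩
      · rw [hz]
        simp only
        by_cases h1 : l = i
        · subst h1
          rw [if_pos rfl, if_neg hi, if_pos rfl, hconj]
        · by_cases h2 : l = f.τ i
          · subst h2
            rw [if_neg hi, if_pos rfl, f.inv, if_pos rfl, map_neg, hconj, neg_neg]
          · have h3 : f.τ l ≠ i := by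
              intro h4
              apply h2
              rw [← h4, f.inv]
            have h4 : f.τ l ≠ f.τ i := fun h5 => h1 (f.τ.injective h5)
            rw [if_neg h1, if_neg h2, if_neg h3, if_neg h4, map_zero]
      · rw [hz]
        have e : (fun l => if l = i then 2 * Real.pi * Complex.I else
            if l = f.τ i then -(2 * Real.pi * Complex.I) else 0) =
            fun l => (if l = i then 2 * Real.pi * Complex.I else 0) +
              (if l = f.τ i then -(2 * Real.pi * Complex.I) else 0) := by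
          funext l
          by_cases h1 : l = i
          · subst h1
            rw [if_pos rfl, if_pos rfl, if_neg (Ne.symm hi), add_zero]
          · rw [if_neg h1, if_neg h1, zero_add]
        rw [e, Finset.sum_add_distrib, Finset.sum_ite_eq' Finset.univ, Finset.sum_ite_eq' Finset.univ,
          if_pos (Finset.mem_univ _), if_pos (Finset.mem_univ _)]
        ring
    refine ⟨f.co ⟨z, hzl⟩, ?_, ?_⟩
    · intro h0
      have h1 : (⟨z, hzl⟩ : f.lie) = 0 := by
        have h2 := congrArg f.co.symm h0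
        rwa [f.co.symm_apply_apply, map_zero] at h2
      have h2 : z i = 0 := by
        have h3 := congrArg Subtype.val h1
        exact congrFun h3 i
      rw [hz] at h2
      simp only [if_true] at h2
      exact Complex.two_pi_I_ne_zero h2
    · apply Subtype.ext
      apply toC_inj
      rw [hom_eq, f.co.symm_apply_apply, Matrix.SpecialLinearGroup.coe_one, map_one]
      have e : (fun l => Complex.exp (z l)) = fun _ => (1 : ℂ) := by
        funext l
        rw [hz]
        simp only
        split_ifs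
        · exact Complex.exp_two_pi_mul_I
        · rw [Complex.exp_neg, Complex.exp_two_pi_mul_I, inv_one]
        · exact Complex.exp_zero
      show f.Q * Matrix.diagonal (fun l => Complex.exp (z l)) * f.R = 1
      rw [e, Matrix.diagonal_one, mul_one, f.QR]

end nice

end Pool.Agent.H73FC
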