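import Pool.Agent.H73FC.Sl

/-!
# Periodic homogeneous submanifolds `SL(d, ℝ) / Γ`: closing for all products
-/

set_option autoImplicit false
set_option linter.unusedSectionVars false

open scoped Manifold ContDiff Topology
open Filter Set Metric

universe u v

namespace Pool.Agent.H73FC

open Pool.Agent.H718R2.G Pool.Agent.W564.SC Pool.Agent.TH80.CLX Pool.Agent.TH382.HS
open Pool.Agent.Y271.CP Pool.Agent.TH382.QC Pool.Agent.Y368.SLD

section

variable {d : ℕ} {m k n : ℕ} {M : Type*} [TopologicalSpace M] [ChartedSpace (V m) M]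
  {Y : Type*} [TopologicalSpace Y] [T2Space Y] [CompactSpace Y] [ChartedSpace (V k) Y]
  [IsManifold (𝓡 k) ∞ Y] {N : Type u} [TopologicalSpace N] [T2Space N] [CompactSpace N]
  [ChartedSpace (V n) N] [IsManifold (𝓡 n) ∞ N] {r : ℕ∞}

/-- All `H` whose return map to the orbit of `y` is `g y ↦ h g κ y` can be closed at `y`, together with
their products with arbitrary maps. -/
def PS (Θ : ProdDiffeo m k n M Y N) (r : ℕ∞) (act : SLd d → Y → Y) (y : Y) (p : ℕ) (κ h : SLd d) :
    Prop :=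
  ∀ H : DiffM k Y r, (∀ g, H^[p] (act g y) = act (h * g * κ) y) →
    (∀ i, 1 ≤ i → i < p → ∀ g g', H^[i] (act g y) ≠ act g' y) → SC Θ r H y

/-- Limits along homomorphisms. -/
theorem ps_limit {Θ : ProdDiffeo m k n M Y N} {O : Set Y} {act : SLd d → Y → Y}
    (hact : IsSLdAction d k Y O act) {y : Y}
    (hyO : y ∈ O) (hlat : IsLatticePt act y) {p : ℕ} (hp : 1 ≤ p) {h κ : SLd d}
    {j : ℕ} {c : V j → SLd d} (hc : IsHomFam c)
    (hf : ∃ᶠ t in 𝓝 (0 : V j), PS Θ r act y p κ (h * c t)) : PS Θ r act y p κ h := by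
  intro F hF hdis
  obtain ⟨H, ε, hε, hH0, hfam, hH⟩ := Pool.Agent.Y368.SLD.pert hact hyO hlat F hdis hc
  rw [← hH0]
  apply sc_fam hfam
  have hev : ∀ᶠ t in 𝓝 (0 : V j), ‖t‖ < ε := by
    have h1 : ContinuousAt (fun t : V j => ‖t‖) 0 := continuous_norm.continuousAt
    have h2 : ‖(0 : V j)‖ < ε := by rw [norm_zero]; exact hε
    exact h1.eventually_lt_const h2
  refine (hf.and_eventually hev).mono ?_
  rintro t ⟨hPt, ht⟩
  apply subset_closure
  refine hPt (H t) ?_ ?_
  · intro a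
    rw [hH t ht a p hp le_rfl, hF]
    congr 1
    group
  · intro i' h1 h2 g g'
    rw [hH t ht g i' h1 h2.le]
    exact hdis i' h1 h2 _ _

/-- iterates on the homogeneous submanifold -/
theorem sl_iter {H : Y → Y} {act : SLd d → Y → Y} {y : Y} {p : ℕ} {u κ : SLd d}
    (h2 : ∀ a, H^[p] (act a y) = act (u * a * κ) y) (c : ℕ) :
    ∀ a, (H^[p])^[c] (act a y) = act (u ^ c * a * κ ^ c) y := by
  induction c with
  | zero =>
    intro a
    rw [pow_zero, pow_zero, one_mul, mul_one]
    rfl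
  | succ c ih =>
    intro a
    rw [Function.iterate_succ_apply, h2, ih, pow_succ, pow_succ']
    congr 1
    group

theorem act_pow {O : Set Y} {act : SLd d → Y → Y} (hact : IsSLdAction d k Y O act) {b : SLd d}
    {w : Y} (hw : w ∈ O) (hb : act b w = w) (q : ℕ) : act (b ^ q) w = w := by
  induction q with
  | zero => rw [pow_zero, hact.one w hw]
  | succ q ih => rw [pow_succ, hact.mul _ _ w hw, hb, ih]

theorem sl_act {O : Set Y} {act : SLd d → Y → Y} (hact : IsSLdAction d k Y O act) {j : ℕ}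
    {c : V j → SLd d} (hc : IsHomFam c) : LAct j k Y O (fun t w => act (c t) w) :=
  { isOpen := hact.isOpen
    maps := fun t w hw => hact.maps _ w hw
    smooth := hact.smooth j c hc.smooth
    zero := fun w hw => by
      show act (c 0) w = w
      rw [hc.zero, hact.one w hw]
    add := fun t t' w hw => by
      show act (c (t + t')) w = act (c t) (act (c t') w)
      rw [hc.add, hact.mul _ _ w hw] }

/-- A point of the homogeneous submanifold which is periodic and lies on a closed orbit of a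
one-parameter group which commutes with the return map lies on a periodic circle. -/
theorem circ_of_sl {O : Set Y} {act : SLd d → Y → Y} (hact : IsSLdAction d k Y O act) {y : Y}
    (hyO : y ∈ O) (hlat : IsLatticePt act y) {p : ℕ} (hp : 1 ≤ p) {H : Y → Y} {u κ : SLd d}
    (hH : ∀ a, H^[p] (act a y) = act (u * a * κ) y)
    (hdis : ∀ i, 1 ≤ i → i < p → ∀ g g', H^[i] (act g y) ≠ act g' y)
    {j : ℕ} {c : V j → SLd d} (hc : IsHomFam c) (hcu : ∀ s, u * c s = c s * u) (σ : V j)
    (hσ : ∃ t : ℝ, c (t • σ) ≠ 1) (g : SLd d) (hσg : act (c σ * g) y = act g y) (l : ℕ) (hl : 1 ≤ l)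
    (hper : act (u ^ l * g * κ ^ l) y = act g y) : CircPt k Y H (act g y) := by
  have hgO : act g y ∈ O := hact.maps g y hyO
  have hfl := (sl_act hact hc).flow σ
  refine circPt_of_comm hfl hgO ⟨1, one_ne_zero, ?_⟩ ?_ ⟨p * l, Nat.mul_pos hp hl, 0, ?_⟩ ?_
  · show act (c ((1 : ℝ) • σ)) (act g y) = act g y
    rw [one_smul, ← hact.mul _ _ y hyO, hσg]
  · by_contra hcon
    push Not at hcon
    obtain ⟨t, ht⟩ := hσ
    exact ht (line_trivial hact hyO hlat hc σ g hcon t)
  · show H^[p * l] (act g y) = act (c ((0 : ℝ) • σ)) (act g y)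
    rw [Function.iterate_mul, sl_iter hH, hper, zero_smul, hc.zero, hact.one _ hgO]
  · intro q hq
    obtain ⟨e, i₀, hi₀, hqe⟩ : ∃ e i₀ : ℕ, i₀ < p ∧ q = p * e + i₀ :=
      ⟨q / p, q % p, Nat.mod_lt _ hp, (Nat.div_add_mod q p).symm⟩
    have hcp : ∀ s, u ^ e * c s = c s * u ^ e := by
      intro s
      exact ((show Commute u (c s) from hcu s).pow_left e).eq
    rcases Nat.eq_zero_or_pos i₀ with h0 | h0
    · left
      subst h0
      rw [add_zero] at hqe
      have h4 : ∀ a, H^[q] (act a y) = act (u ^ e * a * κ ^ e) y := by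
        intro a
        rw [hqe, Function.iterate_mul]
        exact sl_iter hH e a
      refine ⟨by rw [h4]; exact hact.maps _ y hyO, fun t => ?_⟩
      show H^[q] (act (c (t • σ)) (act g y)) = act (c (t • σ)) (H^[q] (act g y))
      rw [← hact.mul _ _ y hyO, h4, h4, ← hact.mul _ _ y hyO]
      congr 1
      rw [← mul_assoc, hcp, mul_assoc, mul_assoc, mul_assoc]
    · right
      intro s t hst
      have hst' : H^[q] (act (c (s • σ)) (act g y)) = act (c (t • σ)) (act g y) := hst
      rw [hqe, iter_mul, ← hact.mul _ _ y hyO, ← hact.mul _ _ y hyO, sl_iter hH] at hst'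
      exact hdis i₀ h0 hi₀ _ _ hst'

variable [NeZero d]

theorem ps_nice (hd2 : 2 ≤ d) (hr : 1 ≤ r) {Θ : ProdDiffeo m k n M Y N} {O : Set Y}
    {act : SLd d → Y → Y}
    (hact : IsSLdAction d k Y O act) {y : Y} (hyO : y ∈ O) (hlat : IsLatticePt act y) {p : ℕ}
    (hp : 1 ≤ p) {κ : SLd d} {l : ℕ} (hl : 1 ≤ l) (hk : act (κ ^ l) y = y) {f : Frame d} {h : SLd d}
    {lam : Fin d → ℂ} {q : ℕ} (hn : Nice f h lam q) : PS Θ r act y p κ h := by
  intro F hF hdis
  have hcy := act_cont hact hyO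
  have hy1 : act 1 y = y := hact.one y hyO
  have hq1 : 1 ≤ q := le_trans one_le_two hn.two
  have hcomm := nice_comm hn
  by_cases hall : ∀ i j, ‖lam i‖ = ‖lam j‖
  · -- elements of finite order
    obtain ⟨hhq, σ, hσ0, hσ1⟩ := nice_elliptic hd2 hn hall
    apply sc_of_circ hr
    rw [← hy1]
    refine circ_of_sl hact hyO hlat hp hF hdis f.hom_fam hcomm σ ?_ 1 ?_ (q * l)
      (Nat.mul_pos hq1 hl) ?_
    · by_contra hcon
      push Not at hcon
      exact hσ0 (hom_line f σ hcon)
    · rw [hσ1, one_mul]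
    · rw [pow_mul, hhq, one_pow, one_mul, one_mul, mul_comm q l, pow_mul, act_pow hact hyO hk, hy1]
  · push Not at hall
    obtain ⟨s, g, e, hs, hg, he⟩ := nice_close hn hall hact hyO hlat
    obtain ⟨σ₀, hσ₀⟩ := nice_log hn
    obtain ⟨H, ε, hε, hH0, hfam, hH⟩ := Pool.Agent.Y368.SLD.pert hact hyO hlat F hdis f.hom_fam
    have hy : Tendsto (fun i => act (g i) y) atTop (𝓝 y) := by
      have h1 := (hcy.tendsto 1).comp hg
      rwa [hact.one y hyO] at h1
    rw [← hH0]
    refine sc_seq hfam s hs _ hy ?_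
    have hev : ∀ᶠ i in atTop, ‖s i‖ < ε := by
      have h1 := hs.norm
      rw [norm_zero] at h1
      exact h1.eventually (gt_mem_nhds hε)
    have hσ0 : σ₀ ≠ 0 := by
      intro h0
      rw [h0, f.hom_fam.zero] at hσ₀
      obtain ⟨i, j, hij⟩ := hall
      apply hij
      have h1 : ∀ i, ‖lam i‖ ^ q = 1 := by
        intro i
        have h2 := hn.diag.pow q
        rw [← hσ₀, Matrix.SpecialLinearGroup.coe_one, map_one] at h2
        have h3 : (1 : Mc d) = f.Q * Matrix.diagonal (fun _ => (1 : ℂ)) * f.R := by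
          rw [Matrix.diagonal_one, mul_one, f.QR]
        rw [h3] at h2
        have h4 := congrFun (frame_inj f h2) i
        have h4 : (1 : ℂ) = lam i ^ q := h4
        rw [← norm_pow, ← h4, norm_one]
      have h2 : ∀ i, ‖lam i‖ = 1 := fun i =>
        (pow_eq_one_iff_of_nonneg (norm_nonneg _) (by omega)).1 (h1 i)
      rw [h2, h2]
    have hne : ∀ᶠ i in atTop, σ₀ + (q : ℝ) • s i ≠ 0 := by
      have h1 : Tendsto (fun i => σ₀ + (q : ℝ) • s i) atTop (𝓝 (σ₀ + (q : ℝ) • (0 : V f.dim))) :=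
        tendsto_const_nhds.add (hs.const_smul _)
      rw [smul_zero, add_zero] at h1
      exact h1.eventually_ne hσ0
    filter_upwards [hev, he, hne] with i hi hei hnei
    have h1 := hH (s i) hi
    have h2 : ∀ a : SLd d, (H (s i))^[p] (act a y) = act ((h * f.hom (s i)) * a * κ) y := by
      intro a
      rw [h1 a p hp le_rfl, hF]
      congr 1
      group
    apply sc_of_circ hr
    have hpow : f.hom ((e i : ℝ) • (σ₀ + (q : ℝ) • s i)) = (h * f.hom (s i)) ^ (e i * q) := by
      rw [homFam_nsmul f.hom_fam, f.hom_fam.add, hσ₀, homFam_nsmul f.hom_fam, mul_comm (e i) q,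
        pow_mul, (show Commute h (f.hom (s i)) from hcomm _).mul_pow]
    have hfix : act ((h * f.hom (s i)) ^ e i) (act (g i) y) = act (g i) y := by
      rw [← hact.mul _ _ y hyO]
      exact hei.2
    refine circ_of_sl hact hyO hlat hp h2 ?_ f.hom_fam ?_ ((e i : ℝ) • (σ₀ + (q : ℝ) • s i)) ?_ (g i)
      ?_ (e i * l) (Nat.mul_pos hei.1 hl) ?_
    · intro i' h3 h4 a b
      rw [h1 a i' h3 h4.le]
      exact hdis i' h3 h4 _ _
    · intro t
      have h3 : Commute (f.hom (s i)) (f.hom t) := by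
        show f.hom (s i) * f.hom t = f.hom t * f.hom (s i)
        rw [← f.hom_fam.add, ← f.hom_fam.add, add_comm]
      exact ((show Commute h (f.hom t) from hcomm t).mul_left h3).eq
    · by_contra hcon
      push Not at hcon
      have h3 := hom_line f _ hcon
      rcases smul_eq_zero.1 h3 with h4 | h4
      · have h5 : e i = 0 := by exact_mod_cast h4
        have := hei.1
        omega
      · exact hnei h4
    · rw [hpow, hact.mul _ _ y hyO, pow_mul]
      exact act_pow hact (hact.maps _ y hyO) hfix q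
    · have h3 : act (κ ^ (e i * l)) y = y := by
        rw [mul_comm, pow_mul]
        exact act_pow hact hyO hk _
      rw [hact.mul _ _ y hyO, h3, hact.mul _ _ y hyO, pow_mul]
      exact act_pow hact (hact.maps _ y hyO) hfix l

theorem ps_diag (hd2 : 2 ≤ d) (hr : 1 ≤ r) {Θ : ProdDiffeo m k n M Y N} {O : Set Y}
    {act : SLd d → Y → Y}
    (hact : IsSLdAction d k Y O act) {y : Y} (hyO : y ∈ O) (hlat : IsLatticePt act y) {p : ℕ}
    (hp : 1 ≤ p) {κ : SLd d} {l : ℕ} (hl : 1 ≤ l) (hk : act (κ ^ l) y = y) (f : Frame d) {h : SLd d}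
    {lam : Fin d → ℂ} (hd : Diag f h lam) (hinj : ∀ i j, lam i = lam j → i = j) :
    PS Θ r act y p κ h := by
  refine ps_limit hact hyO hlat hp f.hom_fam ?_
  refine (exists_nice f hd hinj).mono ?_
  rintro t ⟨lam', q, hn⟩
  exact ps_nice hd2 hr hact hyO hlat hp hl hk hn

theorem ps_list (hd2 : 2 ≤ d) (hr : 1 ≤ r) {Θ : ProdDiffeo m k n M Y N} {O : Set Y}
    {act : SLd d → Y → Y}
    (hact : IsSLdAction d k Y O act) {y : Y} (hyO : y ∈ O) (hlat : IsLatticePt act y) {p : ℕ}
    (hp : 1 ≤ p) {κ : SLd d} {l : ℕ} (hl : 1 ≤ l) (hk : act (κ ^ l) y = y) (v : Fin d → ℝ)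
    (L : List (SLd d)) :
    (∀ g ∈ L, ∃ (i j : Fin d) (h : i ≠ j) (t : ℝ), El h t = g) → ∀ h : SLd d,
      (kry v (h * L.prod).1).det ≠ 0 → PS Θ r act y p κ h := by
  induction L with
  | nil =>
    intro _ h hh
    rw [List.prod_nil, mul_one] at hh
    obtain ⟨c, hc, hf⟩ := exists_regular hd2 hh
    refine ps_limit hact hyO hlat hp hc (hf.mono ?_)
    rintro t ⟨f, lam, hD, hinj⟩
    exact ps_diag hd2 hr hact hyO hlat hp hl hk f hD hinj
  | cons g L ih =>
    intro hL h hh
    obtain ⟨i, j, hij, t₀, hg⟩ := hL g List.mem_cons_self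
    have hL' : ∀ g ∈ L, ∃ (i j : Fin d) (h : i ≠ j) (t : ℝ), El h t = g :=
      fun g hg => hL g (List.mem_cons_of_mem _ hg)
    obtain ⟨q, hq⟩ := pol_exists v hij h L.prod
    have hq0 : q ≠ 0 := by
      intro h0
      apply hh
      rw [List.prod_cons, ← mul_assoc, ← hg, ← hq, h0, Polynomial.eval_zero]
    have hev : ∀ᶠ s in 𝓝[≠] (0 : ℝ), q.eval s ≠ 0 := by
      have h1 : ∀ᶠ s in 𝓝[≠] (0 : ℝ), ∀ α ∈ q.roots.toFinset, s ≠ α := by
        rw [Filter.eventually_all_finset]
        intro α _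
        by_cases h0 : α = 0
        · rw [h0]
          exact self_mem_nhdsWithin
        · exact mem_nhdsWithin_of_mem_nhds (isOpen_ne.mem_nhds (Ne.symm h0))
      filter_upwards [h1] with s hs h0
      exact hs s (by rw [Multiset.mem_toFinset, Polynomial.mem_roots hq0]; exact h0) rfl
    obtain ⟨s, hst, hs⟩ := exists_seq_forall_of_frequently hev.frequently
    have hst' : Tendsto s atTop (𝓝 0) := hst.mono_right nhdsWithin_le_nhds
    have htt : Tendsto (fun m => s m • EuclideanSpace.single (0 : Fin 1) (1 : ℝ)) atTop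
        (𝓝 (0 : V 1)) := by
      have h1 := hst'.smul_const (EuclideanSpace.single (0 : Fin 1) (1 : ℝ) : V 1)
      rwa [zero_smul] at h1
    refine ps_limit hact hyO hlat hp (el_fam hij)
      (htt.frequently (Eventually.frequently (Eventually.of_forall fun a => ?_)))
    have ht0 : (s a • EuclideanSpace.single (0 : Fin 1) (1 : ℝ) : V 1) 0 = s a := by simp
    simp only
    rw [ht0]
    refine ih hL' _ ?_
    rw [← hq]
    exact hs a

theorem ps_all (hd2 : 2 ≤ d) (hr : 1 ≤ r) {Θ : ProdDiffeo m k n M Y N} {O : Set Y}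
    {act : SLd d → Y → Y}
    (hact : IsSLdAction d k Y O act) {y : Y} (hyO : y ∈ O) (hlat : IsLatticePt act y) {p : ℕ}
    (hp : 1 ≤ p) {κ : SLd d} {l : ℕ} (hl : 1 ≤ l) (hk : act (κ ^ l) y = y) (h : SLd d) :
    PS Θ r act y p κ h := by
  obtain ⟨g, hg⟩ := exists_cyc d
  have hcl : Subgroup.closure {x : SLd d | ∃ (i j : Fin d) (h : i ≠ j) (t : ℝ), El h t = x} = ⊤ :=
    gen _ fun i j h t => Subgroup.subset_closure ⟨i, j, h, t, rfl⟩
  have hmem : h⁻¹ * g ∈ Subgroup.closure
      {x : SLd d | ∃ (i j : Fin d) (h : i ≠ j) (t : ℝ), El h t = x} := by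
    rw [hcl]
    exact Subgroup.mem_top _
  rw [← Subgroup.mem_toSubmonoid, Subgroup.closure_toSubmonoid] at hmem
  obtain ⟨L, hL, hLp⟩ := Submonoid.exists_list_of_mem_closure hmem
  refine ps_list hd2 hr hact hyO hlat hp hl hk (fun _ => 1) L ?_ h ?_
  · intro x hx
    rcases hL x hx with h1 | ⟨i, j, hij, t, ht⟩
    · exact h1
    · refine ⟨i, j, hij, -t, ?_⟩
      have h2 := Matrix.SpecialLinearGroup.transvection_inv hij t
      refine h2.symm.trans ?_
      have h3 : (Matrix.SpecialLinearGroup.transvection hij t : SLd d) = x⁻¹ := ht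
      rw [h3, inv_inv]
  · rw [hLp, mul_inv_cancel_left]
    exact hg

end

section

variable {m k n : ℕ} {M : Type*} [TopologicalSpace M] [ChartedSpace (V m) M]
  {Y : Type*} [TopologicalSpace Y] [T2Space Y] [CompactSpace Y] [ChartedSpace (V k) Y]
  [IsManifold (𝓡 k) ∞ Y] {N : Type u} [TopologicalSpace N] [T2Space N] [CompactSpace N]
  [ChartedSpace (V n) N] [IsManifold (𝓡 n) ∞ N] {r : ℕ∞}

theorem sc_of_sl {d : ℕ} (hd2 : 2 ≤ d) (hr : 1 ≤ r) {Θ : ProdDiffeo m k n M Y N} {h : DiffM k Y r}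
    {y : Y} (hy : IsSLdPer d k Y h y) : SC Θ r h y := by
  have : NeZero d := ⟨by omega⟩
  obtain ⟨O, act, hact, hyO, hlat, p, hp, ⟨u, κ, l, hl, hk, hF⟩, hdis⟩ := hy
  exact ps_all hd2 hr hact hyO hlat hp hl hk u h hF hdis

/-- The main theorem for products. -/
theorem sc_main (hr : 1 ≤ r) (Θ : ProdDiffeo m k n M Y N) (F : DiffM n N r) (z : N)
    (h : ∀ U : Set (DiffM n N r), IsOpen[strongTop n N r] U → F ∈ U →
      ∃ F' ∈ U, z ∈ closure {w | ∃ x y, w = atP Θ x y ∧ ProdHom r Θ F' x y}) :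
    ClosableAt n N r F z := by
  refine closable_of_limit F z fun U hU hFU => ?_
  obtain ⟨F', hF', hz⟩ := h U hU hFU
  refine ⟨F', hF', closure_mono ?_ hz⟩
  rintro w ⟨x, y, rfl, L, f, g, hx, hL, hrec, hprod, hy⟩
  have hrec' : NonWandAll f ⟨x, hx⟩ := by
    rcases hrec with h1 | h1
    · exact nonWandAll_of_rec f _ h1
    · exact h1
  have hsc : SC Θ r g y := by
    apply sc_closure
    refine closure_mono ?_ hy
    rintro y' (h1 | h1 | ⟨d, hd, h1⟩)
    · exact sc_of_circ hr h1
    · exact sc_of_tor hr h1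
    · exact sc_of_sl hd hr h1
  exact hsc F' L f x hx hL hrec' hprod

end

end Pool.Agent.H73FC
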