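import Pool.Agent.H73FC.Pert
import Pool.Agent.W564.SC.Lib
import Pool.Agent.N102.CF.Main

/-!
# Closed orbits of flows as circle factors: closing at a point which is moved by a semistable iterate
-/

set_option autoImplicit false
set_option linter.unusedSectionVars false

open scoped Manifold ContDiff Topology
open Filter Set Metric

universe u

namespace Pool.Agent.H73FC

open Pool.Agent.H718R2.G Pool.Agent.W564.SC Pool.Agent.TH290.CL Pool.Agent.TH80.CLX
open Pool.Agent.N102.CF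
open Pool.Agent.N102.CF.Pert (norm_V1)

variable {n : ℕ} {N : Type u} [TopologicalSpace N] [T2Space N] [CompactSpace N]
  [ChartedSpace (V n) N] [IsManifold (𝓡 n) ∞ N]

/-- The point `y` of `K` has a nonwandering circle, and the circle diffeomorphism of the clock has a
semistable periodic orbit and moves `a y` forward: `G^q ≥ id + p`, with equality at some `c`, and
`G^q(x) > x + p` where `a y = ex x`. -/
def GoodPt (n : ℕ) (N : Type u) [TopologicalSpace N] [ChartedSpace (V n) N] (F : N → N)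
    (y : N) : Prop :=
  ∃ (O K : Set N) (A : ℝ → N → N) (a : N → ℂ) (G : ℝ → ℝ) (e q : ℕ) (p : ℤ) (c x : ℝ),
    FClock n N F O K A a G e ∧ y ∈ K ∧ CircRec F K A e y ∧ 1 ≤ q ∧ (∀ u, u + p ≤ G^[q] u) ∧
    G^[q] c = c + p ∧ a y = ex x ∧ x + p < G^[q] x

theorem closable_of_goodPt (r : ℕ∞) (hr : 1 ≤ r) (F : DiffM n N r) (z : N)
    (h : GoodPt n N F z) : Closable n N r F z := by
  intro U hU hFU
  obtain ⟨O, K, A, a, G, e, q, p, c, x, hcl, hzK, hrec, hq, hGq, hGc, hax, hGx⟩ := h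
  obtain ⟨H, κ1, hκ1, hH0, hfam, hH⟩ := pert r F hcl (fun _ => 1) contDiff_const
  obtain ⟨χ, hχ⟩ := Pool.Agent.W699.SC.gc n N z
  obtain ⟨k, hk, κ2, hκ2, hCL⟩ := t_CL n N r hr (V 1) H hfam χ z hχ U hU (by rw [hH0]; exact hFU)
  obtain ⟨δ, k₀, hδ, hun⟩ := t1 G hcl.lift q p hq hGq ⟨c, hGc⟩ x hGx (min κ1 κ2)
    (lt_min hκ1 hκ2)
  have hzO : z ∈ O := hcl.sub hzK
  -- the other pieces of the orbit of `K`
  obtain ⟨C0, hC0⟩ : ∃ C0 : Set N, C0 = ⋃ i ∈ Finset.Ico 1 e, F^[i] '' K := ⟨_, rfl⟩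
  -- the radius
  have hzs : χ.symm 0 = z := by
    rw [← hχ.zero]
    exact χ.left_inv hχ.src
  have hsc : ContinuousAt χ.symm (0 : V n) := by
    apply χ.continuousAt_symm
    exact hχ.ball (mem_closedBall_self (by norm_num))
  have hac : ContinuousAt a z := (hcl.smooth.contMDiffAt (hcl.flow.isOpen.mem_nhds hzO)).continuousAt
  -- a neighbourhood of `z` that only meets the piece `K` among the pieces `H^i(K)`
  have hC0c : IsClosed C0 := by
    rw [hC0]
    exact isClosed_biUnion_finset fun i _ => (hcl.compact.image (F.continuous.iterate i)).isClosed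
  have hzC0 : z ∉ C0 := by
    intro hz
    rw [hC0] at hz
    simp only [mem_iUnion, Finset.mem_Ico] at hz
    obtain ⟨i, ⟨hi1, hi2⟩, w, hw, hwy⟩ := hz
    apply hcl.disj w hw i hi1 hi2
    rw [hwy]
    exact hzK
  obtain ⟨ρ, hρ0, hρκ, hρa⟩ : ∃ ρ : ℝ, 0 < ρ ∧ ρ < κ2 ∧
      ∀ y ∈ χ.source, ‖χ y‖ < 3 * ρ → y ∉ C0 ∧ ‖a y - a z‖ < 2 * δ := by
    have h1 : ∀ᶠ y in 𝓝 z, y ∉ C0 ∧ ‖a y - a z‖ < 2 * δ := by
      have h2 : ∀ᶠ y in 𝓝 z, ‖a y - a z‖ < 2 * δ := by
        have h3 : ContinuousAt (fun y => ‖a y - a z‖) z := (hac.sub continuousAt_const).norm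
        have h4 : ‖a z - a z‖ < 2 * δ := by
          rw [sub_self, norm_zero]
          positivity
        exact h3.eventually_lt_const h4
      filter_upwards [hC0c.isOpen_compl.mem_nhds hzC0, h2] with y hy1 hy2
      exact ⟨hy1, hy2⟩
    have h4 : ∀ᶠ v in 𝓝 (0 : V n), χ.symm v ∉ C0 ∧ ‖a (χ.symm v) - a z‖ < 2 * δ := by
      have h5 : Tendsto χ.symm (𝓝 0) (𝓝 z) := by
        have := hsc.tendsto
        rwa [hzs] at this
      exact h5.eventually h1
    obtain ⟨ε, hε, hε2⟩ := Metric.eventually_nhds_iff.1 h4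
    refine ⟨min (ε / 3) (κ2 / 2), lt_min (by linarith) (by linarith),
      (min_le_right _ _).trans_lt (by linarith), ?_⟩
    intro y hy hy2
    have h5 : dist (χ y) 0 < ε := by
      rw [dist_zero_right]
      have : min (ε / 3) (κ2 / 2) ≤ ε / 3 := min_le_left _ _
      linarith
    have h6 := hε2 h5
    rwa [χ.left_inv hy] at h6
  obtain ⟨ε, hε0, hε1, hε2, hε3⟩ : ∃ ε : ℝ, 0 < ε ∧ ε ≤ ρ ∧ ε ≤ κ2 ∧ 2 * ε ≤ κ2 * ρ ^ k := by
    have h5 : 0 < κ2 * ρ ^ k / 2 := by positivity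
    refine ⟨min (min ρ κ2) (κ2 * ρ ^ k / 2), lt_min (lt_min hρ0 hκ2) h5,
      (min_le_left _ _).trans (min_le_left _ _), (min_le_left _ _).trans (min_le_right _ _), ?_⟩
    have := min_le_right (min ρ κ2) (κ2 * ρ ^ k / 2)
    linarith
  have hW : {y : N | y ∈ χ.source ∧ ‖χ y‖ < ε} ∈ 𝓝 z := by
    have h5 : χ.source ∈ 𝓝 z := χ.open_source.mem_nhds hχ.src
    have h6 : ContinuousAt (fun y => ‖χ y‖) z := (χ.continuousAt hχ.src).norm
    have h7 : ∀ᶠ y in 𝓝 z, ‖χ y‖ < ε := by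
      have h8 : ‖χ z‖ < ε := by rw [hχ.zero, norm_zero]; exact hε0
      exact h6.eventually_lt_const h8
    filter_upwards [h5, h7] with y hy1 hy2
    exact ⟨hy1, hy2⟩
  -- correction of the clock
  obtain ⟨σ, hσ⟩ : ∃ σ : N → ℝ, σ = fun y => Complex.arg (a z / a y) / (2 * Real.pi) := ⟨_, rfl⟩
  have hσa : ∀ y ∈ K, a (A (σ y) y) = a z := by
    intro y hy
    rw [hcl.equi _ y hy, ex_eq]
    have h1 : 2 * Real.pi * σ y = Complex.arg (a z / a y) := by
      rw [hσ]
      have := Real.pi_ne_zero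
      field_simp
    rw [h1]
    have h2 := Complex.norm_mul_exp_arg_mul_I (a z / a y)
    rw [norm_div, hcl.norm z hzK, hcl.norm y hy, div_one, Complex.ofReal_one, one_mul] at h2
    rw [h2]
    exact div_mul_cancel₀ _ (hcl.ne_zero hy)
  have hσz : σ z = 0 := by
    rw [hσ]
    show Complex.arg (a z / a z) / (2 * Real.pi) = 0
    rw [div_self (hcl.ne_zero hzK), Complex.arg_one, zero_div]
  have hσc : ContinuousAt σ z := by
    rw [hσ]
    apply ContinuousAt.div_const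
    have h1 : ContinuousAt (fun y => a z / a y) z :=
      continuousAt_const.div hac (hcl.ne_zero hzK)
    have h2 : ContinuousAt Complex.arg (a z / a z) := by
      rw [div_self (hcl.ne_zero hzK)]
      exact Complex.continuousAt_arg Complex.one_mem_slitPlane
    exact ContinuousAt.comp (g := Complex.arg) (f := fun y => a z / a y) h2 h1
  have hW' : {y : N | y ∈ O ∧ A (σ y) y ∈ {y : N | y ∈ χ.source ∧ ‖χ y‖ < ε}} ∈ 𝓝 z := by
    have h1 : ContinuousAt (fun y => A (σ y) y) z := by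
      have h2 : ContinuousAt (fun q : ℝ × N => A q.1 q.2) (σ z, z) := (hcl.flow.at _ z hzO).continuousAt
      exact ContinuousAt.comp (g := fun q : ℝ × N => A q.1 q.2) (f := fun y => (σ y, y)) h2
        (hσc.prodMk continuousAt_id)
    have h3 : {y : N | y ∈ χ.source ∧ ‖χ y‖ < ε} ∈ 𝓝 (A (σ z) z) := by
      rw [hσz, hcl.flow.zero z hzO]
      exact hW
    filter_upwards [hcl.flow.isOpen.mem_nhds hzO, h1.preimage_mem_nhds h3] with y hy1 hy2
    exact ⟨hy1, hy2⟩
  -- the return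
  obtain ⟨m, hm1, hdm, w, hw, hwK, s₀, hs₀⟩ := hrec _ hW' (q * (q * max k₀ 1))
    (Nat.mul_pos hq (Nat.mul_pos hq (lt_of_lt_of_le one_pos (le_max_right _ _))))
  obtain ⟨j, hj⟩ := hdm
  have hj1 : 1 ≤ j := by
    rcases Nat.eq_zero_or_pos j with h0 | h0
    · subst h0
      rw [mul_zero] at hj
      omega
    · exact h0
  obtain ⟨kk, hkk⟩ : ∃ kk : ℕ, kk = q * (max k₀ 1 * j) := ⟨_, rfl⟩
  have hmk : m = kk * q := by
    rw [hj, hkk]
    ring
  have hkk0 : k₀ ≤ kk := by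
    have h1 : max k₀ 1 * 1 ≤ max k₀ 1 * j := Nat.mul_le_mul_left _ hj1
    have h2 : 1 * (max k₀ 1 * j) ≤ q * (max k₀ 1 * j) := Nat.mul_le_mul_right _ hq
    have h3 := le_max_left k₀ 1
    omega
  obtain ⟨t, ht0, ht1, htx, htδ⟩ := hun kk hkk0 ⟨_, hkk⟩
  rw [← hmk] at htx htδ
  obtain ⟨s, hs⟩ : ∃ s : V 1, s = EuclideanSpace.single 0 t := ⟨_, rfl⟩
  have hs0 : s 0 = t := by
    rw [hs]
    simp
  have hsn : ‖s‖ = t := by
    rw [norm_V1, hs0, abs_of_pos ht0]
  obtain ⟨hcs, hcc⟩ := hH s (by rw [hsn]; exact ht1.trans_le (min_le_left _ _))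
  have hG' : (fun x => G (x + s 0 * (fun _ : ℂ => (1 : ℝ)) (ex x))) = fun x => G (x + t) := by
    funext x
    rw [hs0, mul_one]
  rw [hG'] at hcs
  -- the orbit of the perturbed map
  obtain ⟨z', hz'⟩ : ∃ z' : N, z' = A (σ w) w := ⟨_, rfl⟩
  have hz'K : z' ∈ K := by rw [hz']; exact hcl.invA _ w hwK
  have hz'a : a z' = ex x := by
    rw [hz', hσa w hwK, hax]
  have hz'W : z' ∈ χ.source ∧ ‖χ z'‖ < ε := by
    rw [hz']
    exact hw.2
  have hiter : ∀ i, (H s)^[e * i] z' ∈ K ∧ a ((H s)^[e * i] z') = ex ((fun x => G (x + t))^[i] x) := by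
    intro i
    rw [Function.iterate_mul]
    exact ⟨hcs.iter_mem i z' hz'K, hcs.iter_fac i z' hz'K x hz'a⟩
  -- the final point
  have hend : (H s)^[e * m] z' ∈ χ.source ∧ ‖χ ((H s)^[e * m] z')‖ < ε := by
    -- both points are on the circle of `F^(em) w`
    obtain ⟨τ, hτ⟩ := same_circ hcl hcc m w hwK (σ w)
    rw [← hz'] at hτ
    have hFm := hcl.iter_mem m w hwK
    have h2 := hs₀.2
    rw [← hcl.flow.add _ _ _ (hcl.sub hFm)] at h2
    have h3 : A τ ((F^[e])^[m] w) = A (σ (A s₀ ((F^[e])^[m] w)) + s₀) ((F^[e])^[m] w) := by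
      apply hcl.eq_of_ex hFm
      rw [← hτ, ← Function.iterate_mul, (hiter m).2, hcl.flow.add _ _ _ (hcl.sub hFm),
        hσa _ (hcl.invA _ _ hFm), htx, hax]
      have h4 : x + (1 + (kk : ℝ) * p) = x + ((1 + kk * p : ℤ) : ℝ) := by push_cast; ring
      rw [h4, ex_add_int]
    rw [Function.iterate_mul, hτ, h3]
    exact h2
  have he1 := hcl.pos
  apply hCL s z' ρ (e * m) (by rw [hsn]; exact ht1.trans_le (min_le_right _ _)) hz'W.1
    (hz'W.2.trans_le hε2) hρ0 hρκ (Nat.mul_pos he1 hm1) hend.1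
  · refine (norm_sub_le _ _).trans_lt ?_
    have h1 := hend.2
    have h2 := hz'W.2
    linarith
  · intro i hi0 him hiχ
    by_contra hcon
    push Not at hcon
    have h1 : ‖χ ((H s)^[i] z')‖ < 3 * ρ := by
      have h2 : χ ((H s)^[i] z') = (χ ((H s)^[i] z') - χ z') + χ z' := by abel
      rw [h2]
      refine (norm_add_le _ _).trans_lt ?_
      have h3 := hz'W.2
      linarith
    obtain ⟨h2, h3⟩ := hρa _ hiχ h1
    -- the time is a multiple of `e`
    have h4 : i % e = 0 := by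
      by_contra h5
      apply h2
      have h6 : i = i % e + e * (i / e) := (Nat.mod_add_div i e).symm
      have h7 : i % e < e := Nat.mod_lt _ he1
      obtain ⟨t', ht'⟩ := hcc _ (hiter (i / e)).1 (i % e) (by omega) h7.le
      rw [hC0]
      simp only [mem_iUnion, Finset.mem_Ico]
      refine ⟨i % e, ⟨by omega, h7⟩, A t' ((H s)^[e * (i / e)] z'), hcl.invA _ _ (hiter (i / e)).1, ?_⟩
      rw [← ht', ← Function.iterate_add_apply, ← h6]
    obtain ⟨i', rfl⟩ := Nat.dvd_of_mod_eq_zero h4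
    have hi'0 : 0 < i' := Nat.pos_of_mul_pos_left hi0
    have hi'm : i' < m := Nat.lt_of_mul_lt_mul_left him
    rw [(hiter i').2, hax] at h3
    obtain ⟨u, hu⟩ : ∃ u : ℝ, u = (fun x => G (x + t))^[i'] x := ⟨_, rfl⟩
    have h8 : ∀ l : ℤ, δ ≤ |u - x - l| := by
      intro l
      rw [hu]
      exact htδ i' hi'0 hi'm l
    rw [← hu] at h3
    have h9 : ex u - ex x = (ex (u - x) - 1) * ex x := by
      rw [sub_mul, ← ex_add, sub_add_cancel, one_mul]
    rw [h9, norm_mul, norm_ex, mul_one] at h3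
    have h10 := le_norm_ex_sub_one h8
    linarith

end Pool.Agent.H73FC
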