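import Pool.Agent.H73FC.PertA
import Pool.Agent.TH382.QC.Torus

/-!
# Quasi-periodic periodic tori
-/

set_option autoImplicit false
set_option linter.unusedSectionVars false

open scoped Manifold ContDiff Topology
open Filter Set Metric

universe u v

namespace Pool.Agent.H73FC

open Pool.Agent.H718R2.G Pool.Agent.W564.SC Pool.Agent.TH80.CLX Pool.Agent.TH382.HS
open Pool.Agent.Y271.CP Pool.Agent.TH382.QC

/-- iterates of the perturbed map on a set which is periodic under `h` -/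
theorem iter_mul {X : Type*} (H : X → X) (m c i₀ : ℕ) (w : X) :
    H^[m * c + i₀] w = H^[i₀] ((H^[m])^[c] w) := by
  rw [add_comm, Function.iterate_add_apply, Function.iterate_mul]

section

variable {m k n : ℕ} {M : Type*} [TopologicalSpace M] [ChartedSpace (V m) M]
  {Y : Type*} [TopologicalSpace Y] [T2Space Y] [CompactSpace Y] [ChartedSpace (V k) Y]
  [IsManifold (𝓡 k) ∞ Y] {N : Type u} [TopologicalSpace N] [T2Space N] [CompactSpace N]
  [ChartedSpace (V n) N] [IsManifold (𝓡 n) ∞ N] {r : ℕ∞}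

theorem sc_of_tor (hr : 1 ≤ r) {Θ : ProdDiffeo m k n M Y N} {h : DiffM k Y r} {y : Y}
    (hy : TorPer k Y h y) : SC Θ r h y := by
  obtain ⟨e, O, R, p, α, hR, hyO, hint, ⟨a₀, ha₀⟩, hp, hhp, hdis⟩ := hy
  have hRc : Continuous (fun a : V e => R a y) := by
    have h2 : ContMDiff (𝓡 e) ((𝓡 e).prod (𝓡 k)) ∞ (fun a : V e => ((a, y) : V e × Y)) :=
      contMDiff_id.prodMk contMDiff_const
    exact (contMDiffOn_univ.1 (hR.smooth.comp (f := fun a : V e => ((a, y) : V e × Y))
      h2.contMDiffOn (fun t _ => ⟨mem_univ _, hyO⟩))).continuous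
  obtain ⟨C, hC⟩ : ∃ C : Set Y, C = range (fun a : V e => R a y) := ⟨_, rfl⟩
  have hCmem : ∀ a, R a y ∈ C := by
    intro a
    rw [hC]
    exact ⟨a, rfl⟩
  have hper : ∀ a v : V e, (∀ i, ∃ l : ℤ, v i = l) → R (a + v) y = R a y := by
    intro a v hv
    rw [hR.add _ _ y hyO, hint v hv]
  have hCc : IsCompact C := by
    have h1 : C = (fun a : V e => R a y) '' ((fun x : Fin e → ℝ => (WithLp.toLp 2 x : V e)) ''
        (Set.pi univ fun _ => Icc (0 : ℝ) 1)) := by
      rw [hC]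
      ext w
      constructor
      · rintro ⟨a, rfl⟩
        obtain ⟨b, hb⟩ : ∃ b : V e, b = WithLp.toLp 2 (fun i => Int.fract (a i)) := ⟨_, rfl⟩
        obtain ⟨v, hv⟩ : ∃ v : V e, v = WithLp.toLp 2 (fun i => ((⌊a i⌋ : ℤ) : ℝ)) := ⟨_, rfl⟩
        have hab : a = b + v := by
          ext i
          rw [hb, hv]
          show a i = Int.fract (a i) + ((⌊a i⌋ : ℤ) : ℝ)
          rw [Int.fract_add_floor]
        refine ⟨b, ⟨fun i => Int.fract (a i), fun i _ => ⟨Int.fract_nonneg _, (Int.fract_lt_one _).le⟩,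
          hb.symm⟩, ?_⟩
        show R b y = R a y
        rw [hab, hper _ _ (fun i => ⟨⌊a i⌋, by rw [hv]⟩)]
      · rintro ⟨b, -, rfl⟩
        exact ⟨b, rfl⟩
    rw [h1]
    apply IsCompact.image _ hRc
    apply IsCompact.image
    · exact isCompact_univ_pi fun _ => isCompact_Icc
    · exact PiLp.continuous_toLp 2 (fun _ : Fin e => ℝ)
  have hCO : C ⊆ O := by
    rw [hC]
    rintro w ⟨a, rfl⟩
    exact hR.maps a y hyO
  have hinv : ∀ s, ∀ w ∈ C, R s w ∈ C := by
    rw [hC]
    rintro s w ⟨a, rfl⟩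
    exact ⟨s + a, hR.add _ _ y hyO⟩
  have hdis' : ∀ i, 1 ≤ i → i < p → ∀ w ∈ C, h^[i] w ∉ C := by
    rw [hC]
    rintro i hi1 hi2 w ⟨a, rfl⟩ ⟨b, hb⟩
    exact hdis i hi1 hi2 a b hb.symm
  obtain ⟨H, ε, hε, hH0, hfam, hH⟩ := pert_act hR hCc hCO hinv h hdis'
  rw [← hH0]
  apply sc_fam hfam
  -- a direction in which `y` moves
  obtain ⟨v, hv, s₀, hs₀⟩ : ∃ v : V e, (∀ i, ∃ l : ℤ, v i = l) ∧ ∃ s : ℝ, R (s • v) y ≠ y := by
    by_contra hcon
    push Not at hcon
    apply ha₀
    have h1 : ∀ (i : Fin e) (s : ℝ), R (s • EuclideanSpace.single i (1 : ℝ)) y = y := by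
      intro i s
      apply hcon
      intro l
      by_cases hl : l = i
      · exact ⟨1, by rw [hl]; simp⟩
      · exact ⟨0, by simp [hl]⟩
    have h2 : ∀ S : Finset (Fin e),
        R (∑ i ∈ S, (a₀ i) • EuclideanSpace.single i (1 : ℝ)) y = y := by
      classical
      intro S
      induction S using Finset.induction_on with
      | empty => rw [Finset.sum_empty, hR.zero y hyO]
      | insert i S hi ih => rw [Finset.sum_insert hi, hR.add _ _ y hyO, ih, h1]
    have h3 : a₀ = ∑ i ∈ Finset.univ, (a₀ i) • EuclideanSpace.single i (1 : ℝ) := by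
      ext l
      rw [WithLp.ofLp_sum, Finset.sum_apply]
      simp [EuclideanSpace.single_apply]
    rw [h3]
    exact h2 _
  obtain ⟨b, hb, hbint⟩ := rat_approx α
  refine hb.frequently (Eventually.frequently ?_)
  have hev : ∀ᶠ i in atTop, ‖b i‖ < ε := by
    have h1 := hb.norm
    rw [norm_zero] at h1
    exact h1.eventually (gt_mem_nhds hε)
  filter_upwards [hev] with i hi
  apply subset_closure
  apply sc_of_circ hr
  have h1 := hH (b i) hi
  obtain ⟨β, hβ⟩ : ∃ β : V e, β = α + b i := ⟨_, rfl⟩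
  have h2 : ∀ a : V e, (H (b i))^[p] (R a y) = R (a + β) y := by
    intro a
    rw [h1 _ (hCmem a) p hp le_rfl, ← hR.add _ _ y hyO, hhp, hβ]
    congr 1
    abel
  have h3 : ∀ (c : ℕ) (a : V e), ((H (b i))^[p])^[c] (R a y) = R (a + (c : ℝ) • β) y := by
    intro c
    induction c with
    | zero => intro a; simp
    | succ c ih =>
      intro a
      rw [Function.iterate_succ_apply, h2, ih]
      congr 1
      push_cast
      rw [add_smul, one_smul]
      abel
  have hfl := hR.flow v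
  refine circPt_of_comm hfl hyO ⟨1, one_ne_zero, ?_⟩ ⟨s₀, hs₀⟩ ⟨p * (i + 1), Nat.mul_pos hp (by omega), 0, ?_⟩ ?_
  · show R ((1 : ℝ) • v) y = y
    rw [one_smul, hint v hv]
  · show (H (b i))^[p * (i + 1)] y = R ((0 : ℝ) • v) y
    have h4 := h3 (i + 1) 0
    rw [hR.zero y hyO, zero_add] at h4
    rw [Function.iterate_mul, h4, zero_smul, hR.zero y hyO]
    apply hint
    intro l
    obtain ⟨z, hz⟩ := hbint i l
    refine ⟨z, ?_⟩
    rw [← hz, hβ]
    show ((i + 1 : ℕ) : ℝ) * ((α + b i) l) = ((i + 1 : ℕ) • (α + b i)) l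
    rw [← Nat.cast_smul_eq_nsmul ℝ]
    rfl
  · intro q hq
    obtain ⟨c, i₀, hi₀, hqc⟩ : ∃ c i₀ : ℕ, i₀ < p ∧ q = p * c + i₀ :=
      ⟨q / p, q % p, Nat.mod_lt _ hp, (Nat.div_add_mod q p).symm⟩
    rcases Nat.eq_zero_or_pos i₀ with h0 | h0
    · left
      subst h0
      rw [add_zero] at hqc
      have h4 : ∀ a : V e, (H (b i))^[q] (R a y) = R (a + (c : ℝ) • β) y := by
        intro a
        rw [hqc, Function.iterate_mul]
        exact h3 c a
      have h5 : (H (b i))^[q] y = R ((c : ℝ) • β) y := by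
        have h6 := h4 0
        rwa [hR.zero y hyO, zero_add] at h6
      refine ⟨by rw [h5]; exact hR.maps _ y hyO, fun t => ?_⟩
      show (H (b i))^[q] (R (t • v) y) = R (t • v) ((H (b i))^[q] y)
      rw [h4, h5, ← hR.add _ _ y hyO]
    · right
      intro s t hst
      have hst' : (H (b i))^[q] (R (s • v) y) = R (t • v) y := hst
      rw [hqc, iter_mul, h3, h1 _ (hCmem _) i₀ h0 hi₀.le, ← hR.add _ _ y hyO] at hst'
      exact hdis i₀ h0 hi₀ _ _ hst'

end

end Pool.Agent.H73FC
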